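import Mathlib
import Pool.Agent.H493R3.Digits

/-! Removing binary digits at sparse positions. -/

set_option autoImplicit false

namespace Pool.Agent.V1179.Uniq

open Filter Topology Set MeasureTheory
open Pool.Agent.H493R3 (ee ee_norm ee_add ee_neg ee_int)

/-- A binary digit. -/
noncomputable def dg (q : ℕ) (x : ℝ) : ℤ := ⌊2 ^ (q + 1) * x⌋ % 2

/-- Removal of a binary digit. -/
noncomputable def fd (q : ℕ) (x : ℝ) : ℝ := x - dg q x / 2 ^ (q + 1)

theorem dg_cases (q : ℕ) (x : ℝ) : dg q x = 0 ∨ dg q x = 1 := by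
  unfold dg
  omega

theorem fd_le (q : ℕ) (x : ℝ) : fd q x ≤ x := by
  unfold fd
  rcases dg_cases q x with h | h <;> rw [h]
  · simp
  · have : (0 : ℝ) < 1 / 2 ^ (q + 1) := by positivity
    push_cast
    linarith

theorem fd_ge (q : ℕ) (x : ℝ) : x - 1 / 2 ^ (q + 1) ≤ fd q x := by
  unfold fd
  rcases dg_cases q x with h | h <;> rw [h]
  · have : (0 : ℝ) < 1 / 2 ^ (q + 1) := by positivity
    simp only [Int.cast_zero, zero_div, sub_zero]
    linarith
  · push_cast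
    linarith

theorem two_fd (q : ℕ) (x : ℝ) : 2 ^ (q + 1) * fd q x = 2 ^ (q + 1) * x - dg q x := by
  unfold fd
  field_simp

theorem fd_nonneg (q : ℕ) {x : ℝ} (hx : 0 ≤ x) : 0 ≤ fd q x := by
  have h1 := two_fd q x
  have h2 : 0 ≤ ⌊2 ^ (q + 1) * x⌋ := Int.floor_nonneg.2 (by positivity)
  have h3 : dg q x ≤ ⌊2 ^ (q + 1) * x⌋ := by
    unfold dg
    omega
  have h4 : (dg q x : ℝ) ≤ 2 ^ (q + 1) * x := by
    have : (dg q x : ℝ) ≤ ⌊2 ^ (q + 1) * x⌋ := by exact_mod_cast h3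
    exact this.trans (Int.floor_le _)
  have h5 : 0 ≤ 2 ^ (q + 1) * fd q x := by linarith
  by_contra hcon
  push Not at hcon
  have : 2 ^ (q + 1) * fd q x < 0 := mul_neg_of_pos_of_neg (by positivity) hcon
  linarith

theorem floor_fd_same (q : ℕ) (x : ℝ) : ⌊2 ^ (q + 1) * fd q x⌋ % 2 = 0 := by
  rw [two_fd, Int.floor_sub_intCast]
  unfold dg
  omega

theorem floor_fd_lower {q q' : ℕ} (h : q < q') (x : ℝ) :
    ⌊2 ^ (q + 1) * fd q' x⌋ = ⌊2 ^ (q + 1) * x⌋ := by
  apply le_antisymm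
  · apply Int.floor_le_floor
    have := fd_le q' x
    gcongr
  · rw [Int.le_floor]
    set B := ⌊2 ^ (q + 1) * x⌋ with hB
    have h1 := two_fd q' x
    obtain ⟨d, hd⟩ : ∃ d, q' = q + d + 1 := ⟨q' - q - 1, by omega⟩
    have h2 : (2 : ℝ) ^ (q' + 1) = 2 ^ (d + 1) * 2 ^ (q + 1) := by
      rw [hd, ← pow_add]
      congr 1
      ring
    set A := ⌊2 ^ (q' + 1) * x⌋ with hA
    have hBx : (B : ℝ) ≤ 2 ^ (q + 1) * x := Int.floor_le _
    have h3 : 2 * (2 ^ d * B) ≤ A := by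
      rw [hA, Int.le_floor]
      push_cast
      rw [h2, mul_assoc]
      calc (2 : ℝ) * (2 ^ d * B) = 2 ^ (d + 1) * B := by ring
        _ ≤ _ := by gcongr
    have h4 : 2 * (2 ^ d * B) ≤ A - dg q' x := by
      unfold dg
      rw [← hA]
      omega
    have h5 : (2 * (2 ^ d * B) : ℝ) ≤ A - dg q' x := by exact_mod_cast h4
    have h6 : (A : ℝ) ≤ 2 ^ (q' + 1) * x := Int.floor_le _
    have h7 : (2 : ℝ) ^ (d + 1) * B ≤ 2 ^ (d + 1) * (2 ^ (q + 1) * fd q' x) := by
      rw [← mul_assoc, ← h2, h1]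
      calc (2 : ℝ) ^ (d + 1) * B = 2 * (2 ^ d * B) := by ring
        _ ≤ _ := by linarith
    exact le_of_mul_le_mul_left h7 (by positivity)

/-- Removal of several digits. -/
noncomputable def XX (q : ℕ → ℕ) : ℕ → ℝ → ℝ
  | 0, x => x
  | k + 1, x => fd (q k) (XX q k x)

theorem XX_anti (q : ℕ → ℕ) (x : ℝ) : Antitone fun k => XX q k x :=
  antitone_nat_of_succ_le fun k => fd_le _ _

theorem XX_nonneg (q : ℕ → ℕ) {x : ℝ} (hx : 0 ≤ x) (k : ℕ) : 0 ≤ XX q k x := by
  induction k with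
  | zero => exact hx
  | succ k ih => exact fd_nonneg _ ih

theorem XX_le (q : ℕ → ℕ) (x : ℝ) (k : ℕ) : XX q k x ≤ x := XX_anti q x (Nat.zero_le k)

theorem YY_mono {q : ℕ → ℕ} (hq : StrictMono q) (x : ℝ) :
    Monotone fun k => XX q k x - 1 / 2 ^ q k := by
  apply monotone_nat_of_le_succ
  intro k
  have h1 : XX q k x - 1 / 2 ^ (q k + 1) ≤ XX q (k + 1) x := fd_ge _ _
  have h2 : q k + 1 ≤ q (k + 1) := hq (Nat.lt_succ_self k)
  have h3 : (1 : ℝ) / 2 ^ q (k + 1) ≤ 1 / 2 ^ (q k + 1) := by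
    apply one_div_le_one_div_of_le (by positivity)
    exact pow_le_pow_right₀ (by norm_num) h2
  have h4 : (1 : ℝ) / 2 ^ q k = 1 / 2 ^ (q k + 1) + 1 / 2 ^ (q k + 1) := by
    rw [pow_succ]
    field_simp
    norm_num
  linarith

theorem XX_floor {q : ℕ → ℕ} (hq : StrictMono q) (x : ℝ) (k j : ℕ) :
    ⌊2 ^ (q k + 1) * XX q (k + 1 + j) x⌋ = ⌊2 ^ (q k + 1) * XX q (k + 1) x⌋ := by
  induction j with
  | zero => rfl
  | succ j ih =>
    rw [← ih]
    change ⌊2 ^ (q k + 1) * fd (q (k + 1 + j)) (XX q (k + 1 + j) x)⌋ = _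
    exact floor_fd_lower (hq (by omega)) _

/-- The limit. -/
noncomputable def XL (q : ℕ → ℕ) (x : ℝ) : ℝ := ⨅ k, XX q k x

theorem XX_bdd {q : ℕ → ℕ} (hq : StrictMono q) (x : ℝ) :
    BddBelow (range fun k => XX q k x) := by
  refine ⟨XX q 0 x - 1 / 2 ^ q 0, ?_⟩
  rintro _ ⟨k, rfl⟩
  have h1 := YY_mono hq x (Nat.zero_le k)
  have h2 : (0 : ℝ) < 1 / 2 ^ q k := by positivity
  simp only at h1 ⊢
  linarith

theorem XX_tendsto {q : ℕ → ℕ} (hq : StrictMono q) (x : ℝ) :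
    Tendsto (fun k => XX q k x) atTop (𝓝 (XL q x)) :=
  tendsto_atTop_ciInf (XX_anti q x) (XX_bdd hq x)

theorem XL_le {q : ℕ → ℕ} (hq : StrictMono q) (x : ℝ) (k : ℕ) : XL q x ≤ XX q k x :=
  ciInf_le (XX_bdd hq x) k

theorem XL_ge {q : ℕ → ℕ} (hq : StrictMono q) (x : ℝ) (k : ℕ) :
    XX q k x - 1 / 2 ^ q k ≤ XL q x := by
  apply ge_of_tendsto (XX_tendsto hq x)
  filter_upwards [eventually_ge_atTop k] with j hj
  have h1 := YY_mono hq x hj
  have h2 : (0 : ℝ) < 1 / 2 ^ q j := by positivity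
  simp only at h1
  linarith

/-- The set. -/
def KK (q : ℕ → ℕ) : Set ℝ := {x | 0 ≤ x ∧ x ≤ 1 ∧
  ∀ k : ℕ, ∀ j : ℤ, 2 ^ q k * x ∉ Ioo ((j : ℝ) + 1 / 2) ((j : ℝ) + 1)}

theorem KK_closed (q : ℕ → ℕ) : IsClosed (KK q) := by
  have h1 : KK q = Icc 0 1 ∩ ⋂ k : ℕ, ⋂ j : ℤ,
      (fun x : ℝ => 2 ^ q k * x) ⁻¹' (Ioo ((j : ℝ) + 1 / 2) ((j : ℝ) + 1))ᶜ := by
    ext x
    simp only [KK, Set.mem_ofPred_eq, mem_inter_iff, mem_Icc, mem_iInter, mem_preimage,
      mem_compl_iff]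
    tauto
  rw [h1]
  apply isClosed_Icc.inter
  apply isClosed_iInter
  intro k
  apply isClosed_iInter
  intro j
  exact isOpen_Ioo.isClosed_compl.preimage (by fun_prop)

theorem XL_mem {q : ℕ → ℕ} (hq : StrictMono q) {x : ℝ} (hx : x ∈ Ico (0 : ℝ) 1) :
    XL q x ∈ KK q := by
  refine ⟨?_, ?_, ?_⟩
  · exact ge_of_tendsto' (XX_tendsto hq x) fun k => XX_nonneg q hx.1 k
  · exact (XL_le hq x 0).trans hx.2.le
  · intro k j hj
    set A := ⌊2 ^ (q k + 1) * XX q (k + 1) x⌋ with hA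
    have hA2 : A % 2 = 0 := floor_fd_same _ _
    have h1 : Tendsto (fun i => 2 ^ (q k + 1) * XX q i x) atTop (𝓝 (2 ^ (q k + 1) * XL q x)) :=
      (XX_tendsto hq x).const_mul _
    have hfl : ∀ i, k + 1 ≤ i → ⌊2 ^ (q k + 1) * XX q i x⌋ = A := by
      intro i hi
      obtain ⟨d, rfl⟩ := Nat.exists_eq_add_of_le hi
      exact XX_floor hq x k d
    have h2 : (A : ℝ) ≤ 2 ^ (q k + 1) * XL q x := by
      apply ge_of_tendsto h1
      filter_upwards [eventually_ge_atTop (k + 1)] with i hi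
      rw [← hfl i hi]
      exact Int.floor_le _
    have h3 : 2 ^ (q k + 1) * XL q x ≤ A + 1 := by
      apply le_of_tendsto h1
      filter_upwards [eventually_ge_atTop (k + 1)] with i hi
      rw [← hfl i hi]
      exact (Int.lt_floor_add_one _).le
    obtain ⟨B, hB⟩ : ∃ B, A = 2 * B := ⟨A / 2, by omega⟩
    rw [hB] at h2 h3
    push_cast at h2 h3
    rw [pow_succ] at h2 h3
    have h4 : (j : ℝ) < B := by linarith [hj.1]
    have h5 : (B : ℝ) < j + 1 := by linarith [hj.2]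
    have h6 : j < B := by exact_mod_cast h4
    have h7 : B < j + 1 := by exact_mod_cast h5
    omega

theorem fd_meas (q : ℕ) : Measurable (fd q) := by
  unfold fd dg
  apply measurable_id.sub
  apply Measurable.div_const
  have h1 : Measurable fun x : ℝ => ⌊2 ^ (q + 1) * x⌋ :=
    Int.measurable_floor.comp (measurable_const.mul measurable_id)
  have h2 : Measurable fun n : ℤ => ((n % 2 : ℤ) : ℝ) := measurable_of_countable _
  exact h2.comp h1

theorem XX_meas (q : ℕ → ℕ) (k : ℕ) : Measurable (XX q k) := by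
  induction k with
  | zero => exact measurable_id
  | succ k ih => exact (fd_meas (q k)).comp ih

theorem XL_meas {q : ℕ → ℕ} (hq : StrictMono q) : Measurable (XL q) :=
  measurable_of_tendsto_metrizable (XX_meas q) (tendsto_pi_nhds.2 fun x => XX_tendsto hq x)

theorem law_fd (q : ℕ) (A : Set ℝ) : volume (fd q ⁻¹' A) ≤ 2 * volume A := by
  have h1 : fd q ⁻¹' A ⊆ A ∪ (fun x : ℝ => x + (-(1 / 2 ^ (q + 1)))) ⁻¹' A := by
    intro x hx
    rw [mem_preimage] at hx
    unfold fd at hx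
    rcases dg_cases q x with h | h <;> rw [h] at hx
    · left
      simpa using hx
    · right
      rw [mem_preimage, ← sub_eq_add_neg]
      simpa using hx
  refine (measure_mono h1).trans ((measure_union_le _ _).trans ?_)
  rw [measure_preimage_add_right, two_mul]

theorem law_XX (q : ℕ → ℕ) (k : ℕ) (A : Set ℝ) : volume (XX q k ⁻¹' A) ≤ 2 ^ k * volume A := by
  induction k generalizing A with
  | zero =>
    have : XX q 0 ⁻¹' A = A := rfl
    rw [this]
    simp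
  | succ k ih =>
    have h1 : XX q (k + 1) ⁻¹' A = XX q k ⁻¹' (fd (q k) ⁻¹' A) := rfl
    rw [h1]
    refine (ih _).trans ?_
    calc 2 ^ k * volume (fd (q k) ⁻¹' A) ≤ 2 ^ k * (2 * volume A) := by
          gcongr
          exact law_fd _ _
      _ = 2 ^ (k + 1) * volume A := by rw [← mul_assoc, pow_succ]

/-- The measure. -/
noncomputable def mu (q : ℕ → ℕ) : Measure ℝ := (volume.restrict (Ico (0 : ℝ) 1)).map (XL q)

theorem mu_univ {q : ℕ → ℕ} (hq : StrictMono q) : mu q univ = 1 := by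
  unfold mu
  rw [Measure.map_apply (XL_meas hq) MeasurableSet.univ, preimage_univ,
    Measure.restrict_apply MeasurableSet.univ, univ_inter, Real.volume_Ico]
  simp

theorem mu_Icc {q : ℕ → ℕ} (hq : StrictMono q) (k : ℕ) (a b : ℝ) :
    mu q (Icc a b) ≤ 2 ^ k * ENNReal.ofReal (b - a + 1 / 2 ^ q k) := by
  unfold mu
  rw [Measure.map_apply (XL_meas hq) measurableSet_Icc]
  have h1 : XL q ⁻¹' Icc a b ⊆ XX q k ⁻¹' Icc a (b + 1 / 2 ^ q k) := by
    intro x hx
    have h2 := XL_le hq x k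
    have h3 := XL_ge hq x k
    rw [mem_preimage] at hx ⊢
    exact ⟨by linarith [hx.1], by linarith [hx.2]⟩
  calc (volume.restrict (Ico (0 : ℝ) 1)) (XL q ⁻¹' Icc a b) ≤ volume (XL q ⁻¹' Icc a b) :=
        Measure.restrict_apply_le _ _
    _ ≤ volume (XX q k ⁻¹' Icc a (b + 1 / 2 ^ q k)) := measure_mono h1
    _ ≤ 2 ^ k * volume (Icc a (b + 1 / 2 ^ q k)) := law_XX q k _
    _ = _ := by
        rw [Real.volume_Icc]
        congr 2
        ring

theorem law_le (q : ℕ → ℕ) (k : ℕ) :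
    (volume.restrict (Ico (0 : ℝ) 1)).map (XX q k) ≤
      (2 ^ k : ENNReal) • volume.restrict (Ico (0 : ℝ) 1) := by
  rw [Measure.le_iff]
  intro A hA
  rw [Measure.map_apply (XX_meas q k) hA, Measure.restrict_apply (XX_meas q k hA),
    Measure.smul_apply, Measure.restrict_apply hA, smul_eq_mul]
  have h1 : XX q k ⁻¹' A ∩ Ico 0 1 ⊆ XX q k ⁻¹' (A ∩ Ico 0 1) := by
    rintro x ⟨hx, hx1⟩
    refine ⟨hx, XX_nonneg q hx1.1 k, ?_⟩
    exact (XX_le q x k).trans_lt hx1.2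
  exact (measure_mono h1).trans (law_XX q k _)

/-- The Weyl sums. -/
noncomputable def Z (b h N : ℕ) (x : ℝ) : ℂ := ∑ j ∈ Finset.range N, ee (h * (x * (b : ℝ) ^ j))

theorem ee_cont' : Continuous ee := by unfold ee; fun_prop

theorem Z_cont (b h N : ℕ) : Continuous (Z b h N) := by
  unfold Z
  exact continuous_finsetSum _ fun j _ => ee_cont'.comp (by fun_prop)

theorem Z_le (b h N : ℕ) (x : ℝ) : ‖Z b h N x‖ ≤ N := by
  unfold Z
  refine (norm_sum_le _ _).trans ?_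
  simp [ee_norm]

theorem Z_step (b h : ℕ) {M N : ℕ} (hMN : M ≤ N) (x : ℝ) :
    ‖Z b h N x‖ ≤ ‖Z b h M x‖ + ((N : ℝ) - M) := by
  unfold Z
  rw [← Finset.sum_range_add_sum_Ico _ hMN]
  refine (norm_add_le _ _).trans ?_
  gcongr
  refine (norm_sum_le _ _).trans ?_
  simp [ee_norm, Nat.cast_sub hMN]

theorem ee_lip (x y : ℝ) : ‖ee x - ee y‖ ≤ 7 * |x - y| := by
  have h1 : ee x - ee y = ee y * (ee (x - y) - 1) := by
    rw [mul_sub, mul_one, ← ee_add]; congr 2; ring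
  have h2 : ee (x - y) = Complex.exp (Complex.I * ((2 * Real.pi * (x - y) : ℝ) : ℂ)) := by
    unfold ee
    congr 1
    push_cast; ring
  rw [h1, norm_mul, ee_norm, one_mul, h2]
  refine (Real.norm_exp_I_mul_ofReal_sub_one_le).trans ?_
  rw [Real.norm_eq_abs, abs_mul, abs_of_pos (by positivity : 0 < 2 * Real.pi)]
  have h3 := Real.pi_lt_d2
  have h4 := abs_nonneg (x - y)
  nlinarith

theorem geom_le (b : ℕ) (hb : 2 ≤ b) (M : ℕ) :
    ∑ j ∈ Finset.range M, (b : ℝ) ^ j ≤ (b : ℝ) ^ M := by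
  have hb2 : (2 : ℝ) ≤ b := by exact_mod_cast hb
  induction M with
  | zero => simp
  | succ M ih =>
    rw [Finset.sum_range_succ, pow_succ]
    have : (0 : ℝ) ≤ (b : ℝ) ^ M := by positivity
    nlinarith

theorem Z_close (b h N : ℕ) (hb : 2 ≤ b) (x y : ℝ) :
    ‖Z b h N x‖ ≤ ‖Z b h N y‖ + 7 * h * (|x - y| * (b : ℝ) ^ N) := by
  have h1 : ‖Z b h N x - Z b h N y‖ ≤ 7 * h * (|x - y| * (b : ℝ) ^ N) := by
    unfold Z
    rw [← Finset.sum_sub_distrib]
    refine (norm_sum_le _ _).trans ?_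
    calc ∑ j ∈ Finset.range N, ‖ee (h * (x * (b : ℝ) ^ j)) - ee (h * (y * (b : ℝ) ^ j))‖
        ≤ ∑ j ∈ Finset.range N, 7 * h * |x - y| * (b : ℝ) ^ j := by
          refine Finset.sum_le_sum fun j _ => ?_
          refine (ee_lip _ _).trans (le_of_eq ?_)
          have e : (h : ℝ) * (x * (b : ℝ) ^ j) - h * (y * (b : ℝ) ^ j) =
              (h * (b : ℝ) ^ j) * (x - y) := by ring
          rw [e, abs_mul, abs_of_nonneg (by positivity : (0 : ℝ) ≤ h * (b : ℝ) ^ j)]
          ring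
      _ = 7 * h * |x - y| * ∑ j ∈ Finset.range N, (b : ℝ) ^ j := by rw [Finset.mul_sum]
      _ ≤ 7 * h * |x - y| * (b : ℝ) ^ N := by
          gcongr
          exact geom_le b hb N
      _ = _ := by ring
  have h2 := norm_sub_norm_le (Z b h N x) (Z b h N y)
  linarith

theorem int_ee01 (m : ℤ) : ∫ x in (0 : ℝ)..1, ee (m * x) = if m = 0 then 1 else 0 := by
  split_ifs with hm
  · subst hm
    have : ee 0 = 1 := by simpa using ee_int 0
    simp [this]
  · have h0 : (2 * Real.pi * m * Complex.I : ℂ) ≠ 0 := by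
      have := Real.pi_ne_zero
      simp [hm, this]
    have h1 : ∀ x : ℝ, ee (m * x) = Complex.exp ((2 * Real.pi * m * Complex.I : ℂ) * x) := by
      intro x
      unfold ee
      congr 1
      push_cast
      ring
    simp_rw [h1]
    rw [integral_exp_mul_complex h0, ← h1, ← h1]
    have h2 : ee (m * 1) = 1 := by rw [mul_one]; exact ee_int m
    have h3 : ee (m * 0) = 1 := by rw [mul_zero]; simpa using ee_int 0
    rw [h2, h3]
    simp

/-- Orthogonality. -/
theorem Z_int (b h N : ℕ) (hb : 2 ≤ b) (hh : 1 ≤ h) :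
    ∫ x in (0 : ℝ)..1, ‖Z b h N x‖ ^ 2 = N := by
  have h1 : ∀ x : ℝ, ((‖Z b h N x‖ ^ 2 : ℝ) : ℂ) = ∑ i ∈ Finset.range N, ∑ j ∈ Finset.range N,
      ee (((h : ℤ) * ((b : ℤ) ^ i - (b : ℤ) ^ j) : ℤ) * x) := by
    intro x
    have h2 : ((‖Z b h N x‖ ^ 2 : ℝ) : ℂ) = Z b h N x * (starRingEnd ℂ) (Z b h N x) := by
      rw [Complex.mul_conj, Complex.normSq_eq_norm_sq]
    rw [h2]
    unfold Z
    rw [map_sum, Finset.sum_mul_sum]
    apply Finset.sum_congr rfl
    intro i _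
    apply Finset.sum_congr rfl
    intro j _
    rw [← ee_neg, ← ee_add]
    congr 1
    push_cast
    ring
  have h3 : ((∫ x in (0 : ℝ)..1, ‖Z b h N x‖ ^ 2 : ℝ) : ℂ) = (N : ℂ) := by
    rw [← intervalIntegral.integral_ofReal]
    simp_rw [h1]
    rw [intervalIntegral.integral_finsetSum]
    · have h4 : ∀ i ∈ Finset.range N, ∫ x in (0 : ℝ)..1, ∑ j ∈ Finset.range N,
          ee (((h : ℤ) * ((b : ℤ) ^ i - (b : ℤ) ^ j) : ℤ) * x) = 1 := by
        intro i hi
        rw [intervalIntegral.integral_finsetSum]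
        · simp_rw [int_ee01]
          rw [Finset.sum_eq_single i]
          · simp
          · intro j _ hji
            rw [if_neg]
            intro h0
            rcases mul_eq_zero.1 h0 with h5 | h5
            · omega
            · have h6 : (b : ℤ) ^ i = (b : ℤ) ^ j := by linarith
              have h7 : b ^ i = b ^ j := by exact_mod_cast h6
              exact hji (Nat.pow_right_injective hb h7).symm
          · intro h0; exact absurd hi h0
        · intro j _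
          exact (ee_cont'.comp (by fun_prop)).intervalIntegrable _ _
      rw [Finset.sum_congr rfl h4]
      simp
    · intro i _
      apply Continuous.intervalIntegrable
      exact continuous_finsetSum _ fun j _ => ee_cont'.comp (by fun_prop)
  exact_mod_cast h3

theorem Z_lint (b h N : ℕ) (hb : 2 ≤ b) (hh : 1 ≤ h) :
    ∫⁻ x in Ico (0 : ℝ) 1, ENNReal.ofReal (‖Z b h N x‖ ^ 2) = N := by
  have hc : Continuous fun x => ‖Z b h N x‖ ^ 2 := (Z_cont b h N).norm.pow 2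
  have hi : IntegrableOn (fun x => ‖Z b h N x‖ ^ 2) (Ico (0 : ℝ) 1) :=
    (hc.integrableOn_Icc (a := (0 : ℝ)) (b := 1)).mono_set Ico_subset_Icc_self
  rw [← ofReal_integral_eq_lintegral_ofReal hi (Eventually.of_forall fun x => by positivity),
    integral_Ico_eq_integral_Ioc, ← intervalIntegral.integral_of_le zero_le_one, Z_int b h N hb hh]
  simp

theorem Z_lint_XX (q : ℕ → ℕ) (k b h N : ℕ) (hb : 2 ≤ b) (hh : 1 ≤ h) :
    ∫⁻ x in Ico (0 : ℝ) 1, ENNReal.ofReal (‖Z b h N (XX q k x)‖ ^ 2) ≤ 2 ^ k * N := by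
  have hm : Measurable fun x => ENNReal.ofReal (‖Z b h N x‖ ^ 2) :=
    ENNReal.measurable_ofReal.comp ((Z_cont b h N).norm.pow 2).measurable
  rw [← lintegral_map hm (XX_meas q k)]
  refine (lintegral_mono' (law_le q k) le_rfl).trans ?_
  rw [lintegral_smul_measure, Z_lint b h N hb hh, smul_eq_mul]

end Pool.Agent.V1179.Uniq
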