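import Mathlib
import Pool.Agent.V1179.Uniq.Meas

/-! Almost every point is absolutely normal. -/

set_option autoImplicit false

namespace Pool.Agent.V1179.Uniq

open Filter Topology Set MeasureTheory

/-- From squares to all integers. -/
theorem interp {a : ℕ → ℝ} (h0 : ∀ N, 0 ≤ a N) (h1 : ∀ M N : ℕ, M ≤ N → a N ≤ a M + ((N : ℝ) - M))
    (h2 : Tendsto (fun M : ℕ => a (M ^ 2) / (M : ℝ) ^ 2) atTop (𝓝 0)) :
    Tendsto (fun N : ℕ => a N / N) atTop (𝓝 0) := by
  have h3 : Tendsto (fun M : ℕ => a (M ^ 2) / (M : ℝ) ^ 2 + 2 / (M : ℝ)) atTop (𝓝 0) := by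
    have := h2.add (tendsto_const_div_atTop_nhds_zero_nat (2 : ℝ))
    simpa using this
  have h4 : Tendsto Nat.sqrt atTop atTop := by
    apply tendsto_atTop_atTop.2
    intro b
    refine ⟨b * b, fun n hn => ?_⟩
    exact Nat.le_sqrt.2 hn
  apply tendsto_of_tendsto_of_tendsto_of_le_of_le' tendsto_const_nhds (h3.comp h4)
  · exact Eventually.of_forall fun N => div_nonneg (h0 N) (Nat.cast_nonneg N)
  · filter_upwards [eventually_ge_atTop 1] with N hN
    simp only [Function.comp]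
    set M := Nat.sqrt N with hM
    have hM1 : 1 ≤ M := Nat.le_sqrt.2 (by omega)
    have hMr : (1 : ℝ) ≤ M := by exact_mod_cast hM1
    have hMN : M ^ 2 ≤ N := by rw [pow_two]; exact Nat.sqrt_le N
    have hNM : N ≤ M * M + M + M := Nat.sqrt_le_add N
    have h5 := h1 (M ^ 2) N hMN
    have h6 : (N : ℝ) ≤ M * M + M + M := by exact_mod_cast hNM
    have h7 : (M : ℝ) ^ 2 ≤ N := by exact_mod_cast hMN
    push_cast at h5
    have h8 : a N ≤ a (M ^ 2) + 2 * M := by nlinarith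
    have hN0 : (0 : ℝ) < N := by exact_mod_cast hN
    have h9 := h0 (M ^ 2)
    calc a N / N ≤ (a (M ^ 2) + 2 * M) / (M : ℝ) ^ 2 := by
          gcongr
      _ = _ := by
          field_simp

theorem sum_sqrt : Summable fun M : ℕ => 4 * Real.sqrt M / (M : ℝ) ^ 2 := by
  have h1 : Summable fun M : ℕ => 1 / (M : ℝ) ^ (3 / 2 : ℝ) :=
    Real.summable_one_div_nat_rpow.2 (by norm_num)
  refine (h1.mul_left 4).congr fun M => ?_
  rcases Nat.eq_zero_or_pos M with rfl | hM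
  · simp
  have hM0 : (0 : ℝ) < M := by exact_mod_cast hM
  rw [Real.sqrt_eq_rpow, mul_div_assoc]
  congr 1
  rw [← Real.rpow_natCast, ← Real.rpow_sub hM0, one_div, ← Real.rpow_neg hM0.le]
  norm_num

theorem ae_Z {q : ℕ → ℕ} (hq : StrictMono q) (hg : ∀ k : ℕ, 7 * k * k ^ (16 ^ (k + 1)) ≤ q k)
    (b h : ℕ) (hb : 2 ≤ b) (hh : 1 ≤ h) :
    ∀ᵐ x ∂(volume.restrict (Ico (0 : ℝ) 1)),
      Tendsto (fun N : ℕ => ‖Z b h N (XL q x)‖ / N) atTop (𝓝 0) := by
  set M₀ : ℕ := 4 ^ (max b h) with hM₀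
  have hM0pos : 0 < M₀ := by positivity
  -- closeness
  have hclose : ∀ i : ℕ, ∀ x, ‖Z b h ((M₀ + i) ^ 2) (XL q x)‖ ≤
      ‖Z b h ((M₀ + i) ^ 2) (XX q (Nat.log 4 (M₀ + i)) x)‖ + 1 := by
    intro i x
    set M := M₀ + i with hM
    set k := Nat.log 4 M with hk
    have hkM : max b h ≤ k := by
      rw [hk]
      apply Nat.le_log_of_pow_le (by norm_num)
      omega
    have hMk : M < 4 ^ (k + 1) := Nat.lt_pow_succ_log_self (by norm_num) M
    have hM2 : M ^ 2 ≤ 16 ^ (k + 1) := by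
      calc M ^ 2 ≤ (4 ^ (k + 1)) ^ 2 := by gcongr
        _ = 16 ^ (k + 1) := by rw [← pow_mul, mul_comm, pow_mul]; norm_num
    refine (Z_close b h (M ^ 2) hb _ (XX q k x)).trans ?_
    gcongr
    have h1 : |XL q x - XX q k x| ≤ 1 / 2 ^ q k := by
      rw [abs_le]
      have := XL_le hq x k
      have := XL_ge hq x k
      have : (0 : ℝ) < 1 / 2 ^ q k := by positivity
      constructor <;> linarith
    have hbk : (b : ℝ) ≤ k := by exact_mod_cast (le_max_left b h).trans hkM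
    have hhk : (h : ℝ) ≤ k := by exact_mod_cast (le_max_right b h).trans hkM
    have hk1 : (1 : ℝ) ≤ k := by
      have : (2 : ℝ) ≤ b := by exact_mod_cast hb
      linarith
    have h2 : (b : ℝ) ^ (M ^ 2) ≤ (k : ℝ) ^ (16 ^ (k + 1)) := by
      calc (b : ℝ) ^ (M ^ 2) ≤ (k : ℝ) ^ (M ^ 2) := by gcongr
        _ ≤ _ := pow_le_pow_right₀ hk1 hM2
    have h3 : (7 * k * k ^ (16 ^ (k + 1)) : ℝ) ≤ 2 ^ q k := by
      have h4 : (7 * k * k ^ (16 ^ (k + 1)) : ℝ) ≤ q k := by exact_mod_cast hg k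
      have h5 : (q k : ℝ) ≤ 2 ^ q k := by exact_mod_cast (Nat.lt_two_pow_self).le
      linarith
    calc 7 * (h : ℝ) * (|XL q x - XX q k x| * (b : ℝ) ^ (M ^ 2))
        ≤ 7 * k * (1 / 2 ^ q k * (k : ℝ) ^ (16 ^ (k + 1))) := by gcongr
      _ = (7 * k * (k : ℝ) ^ (16 ^ (k + 1))) / 2 ^ q k := by ring
      _ ≤ 1 := by rw [div_le_one (by positivity)]; exact h3
  -- second moments
  have hmom : ∀ i : ℕ, ∫⁻ x in Ico (0 : ℝ) 1,
      ENNReal.ofReal ((‖Z b h ((M₀ + i) ^ 2) (XL q x)‖ / ((M₀ + i : ℕ) : ℝ) ^ 2) ^ 2) ≤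
      ENNReal.ofReal (4 * Real.sqrt ((M₀ + i : ℕ) : ℝ) / ((M₀ + i : ℕ) : ℝ) ^ 2) := by
    intro i
    have hcl := hclose i
    set M := M₀ + i with hM
    set k := Nat.log 4 M with hk
    have hM1 : 1 ≤ M := by omega
    have hMr : (1 : ℝ) ≤ M := by exact_mod_cast hM1
    have h4k : 4 ^ k ≤ M := Nat.pow_log_le_self 4 (by omega)
    have h2k : (2 : ℝ) ^ k ≤ Real.sqrt M := by
      apply Real.le_sqrt_of_sq_le
      rw [← pow_mul, mul_comm, pow_mul]
      norm_num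
      exact_mod_cast h4k
    have hpt : ∀ x, (‖Z b h (M ^ 2) (XL q x)‖ / (M : ℝ) ^ 2) ^ 2 ≤
        (1 / (M : ℝ) ^ 4) * (2 * ‖Z b h (M ^ 2) (XX q k x)‖ ^ 2 + 2) := by
      intro x
      have h1 := hcl x
      have h2 := norm_nonneg (Z b h (M ^ 2) (XL q x))
      have h3 := norm_nonneg (Z b h (M ^ 2) (XX q k x))
      have h4 : ‖Z b h (M ^ 2) (XL q x)‖ ^ 2 ≤ 2 * ‖Z b h (M ^ 2) (XX q k x)‖ ^ 2 + 2 := by
        nlinarith [sq_nonneg (‖Z b h (M ^ 2) (XX q k x)‖ - 1)]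
      rw [div_pow, ← pow_mul, one_div_mul_eq_div]
      gcongr
    have hmeas : Measurable fun x => ENNReal.ofReal (‖Z b h (M ^ 2) (XX q k x)‖ ^ 2) :=
      ENNReal.measurable_ofReal.comp
        (((Z_cont b h (M ^ 2)).norm.pow 2).measurable.comp (XX_meas q k))
    calc ∫⁻ x in Ico (0 : ℝ) 1, ENNReal.ofReal ((‖Z b h (M ^ 2) (XL q x)‖ / (M : ℝ) ^ 2) ^ 2)
        ≤ ∫⁻ x in Ico (0 : ℝ) 1, ENNReal.ofReal (1 / (M : ℝ) ^ 4) *
          (2 * ENNReal.ofReal (‖Z b h (M ^ 2) (XX q k x)‖ ^ 2) + 2) := by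
          apply lintegral_mono
          intro x
          simp only
          refine (ENNReal.ofReal_le_ofReal (hpt x)).trans (le_of_eq ?_)
          rw [ENNReal.ofReal_mul (by positivity), ENNReal.ofReal_add (by positivity) (by norm_num),
            ENNReal.ofReal_mul (by norm_num)]
          norm_num
      _ = ENNReal.ofReal (1 / (M : ℝ) ^ 4) *
          (2 * (∫⁻ x in Ico (0 : ℝ) 1, ENNReal.ofReal (‖Z b h (M ^ 2) (XX q k x)‖ ^ 2)) + 2) := by
          rw [lintegral_const_mul _ ((hmeas.const_mul 2).add_const 2),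
            lintegral_add_right _ measurable_const, lintegral_const_mul _ hmeas,
            setLIntegral_const, Real.volume_Ico]
          simp
      _ ≤ ENNReal.ofReal (1 / (M : ℝ) ^ 4) * (2 * (2 ^ k * ((M ^ 2 : ℕ) : ENNReal)) + 2) := by
          gcongr
          exact Z_lint_XX q k b h (M ^ 2) hb hh
      _ = ENNReal.ofReal ((1 / (M : ℝ) ^ 4) * (2 * (2 ^ k * (M : ℝ) ^ 2) + 2)) := by
          rw [ENNReal.ofReal_mul (by positivity), ENNReal.ofReal_add (by positivity) (by norm_num),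
            ENNReal.ofReal_mul (by norm_num), ENNReal.ofReal_mul (by positivity),
            ENNReal.ofReal_pow (by norm_num), ENNReal.ofReal_pow (by positivity),
            ENNReal.ofReal_natCast]
          norm_num
      _ ≤ _ := by
          apply ENNReal.ofReal_le_ofReal
          rw [one_div_mul_eq_div, div_le_div_iff₀ (by positivity) (by positivity)]
          have hs1 : 1 ≤ Real.sqrt M := by
            rw [Real.one_le_sqrt]; exact hMr
          have hM2 : 1 ≤ (M : ℝ) ^ 2 := one_le_pow₀ hMr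
          have h5 : 2 * (2 ^ k * (M : ℝ) ^ 2) + 2 ≤ 4 * Real.sqrt M * (M : ℝ) ^ 2 := by
            have h6 : 2 ^ k * (M : ℝ) ^ 2 ≤ Real.sqrt M * (M : ℝ) ^ 2 := by gcongr
            have h7 : 1 ≤ Real.sqrt M * (M : ℝ) ^ 2 := by nlinarith
            linarith
          calc (2 * (2 ^ k * (M : ℝ) ^ 2) + 2) * (M : ℝ) ^ 2
              ≤ (4 * Real.sqrt M * (M : ℝ) ^ 2) * (M : ℝ) ^ 2 := by gcongr
            _ = _ := by ring
  have hsumm : Summable fun i : ℕ => 4 * Real.sqrt ((M₀ + i : ℕ) : ℝ) / ((M₀ + i : ℕ) : ℝ) ^ 2 := by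
    have := (summable_nat_add_iff M₀).2 sum_sqrt
    refine this.congr fun i => ?_
    rw [add_comm i M₀]
  have hfin : ∫⁻ x in Ico (0 : ℝ) 1, ∑' i : ℕ,
      ENNReal.ofReal ((‖Z b h ((M₀ + i) ^ 2) (XL q x)‖ / ((M₀ + i : ℕ) : ℝ) ^ 2) ^ 2) ≠ ⊤ := by
    rw [lintegral_tsum]
    · apply ne_top_of_le_ne_top _ (ENNReal.tsum_le_tsum hmom)
      exact hsumm.tsum_ofReal_ne_top
    · intro i
      apply Measurable.aemeasurable
      apply ENNReal.measurable_ofReal.comp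
      apply Measurable.pow_const
      apply Measurable.div_const
      exact (Z_cont b h _).norm.measurable.comp (XL_meas hq)
  have hmeas2 : Measurable fun x => ∑' i : ℕ,
      ENNReal.ofReal ((‖Z b h ((M₀ + i) ^ 2) (XL q x)‖ / ((M₀ + i : ℕ) : ℝ) ^ 2) ^ 2) := by
    apply Measurable.ennreal_tsum
    intro i
    apply ENNReal.measurable_ofReal.comp
    apply Measurable.pow_const
    apply Measurable.div_const
    exact (Z_cont b h _).norm.measurable.comp (XL_meas hq)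
  filter_upwards [ae_lt_top hmeas2 hfin] with x hx
  apply interp (fun N => norm_nonneg _) (fun M N hMN => Z_step b h hMN _)
  rw [← tendsto_add_atTop_iff_nat M₀]
  have h1 := ENNReal.tendsto_atTop_zero_of_tsum_ne_top hx.ne
  have h2 := (ENNReal.tendsto_toReal (by simp : (0 : ENNReal) ≠ ⊤)).comp h1
  simp only [ENNReal.toReal_zero] at h2
  have h3 : Tendsto (fun i : ℕ => (‖Z b h ((M₀ + i) ^ 2) (XL q x)‖ / ((M₀ + i : ℕ) : ℝ) ^ 2) ^ 2)
      atTop (𝓝 0) := by
    refine h2.congr fun i => ?_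
    simp only [Function.comp]
    rw [ENNReal.toReal_ofReal (by positivity)]
  have h4 := h3.sqrt
  rw [Real.sqrt_zero] at h4
  refine h4.congr fun i => ?_
  rw [Real.sqrt_sq (by positivity), add_comm i M₀]

theorem ae_Z_all {q : ℕ → ℕ} (hq : StrictMono q)
    (hg : ∀ k : ℕ, 7 * k * k ^ (16 ^ (k + 1)) ≤ q k) :
    ∀ᵐ x ∂(volume.restrict (Ico (0 : ℝ) 1)), ∀ b : ℕ, 2 ≤ b → ∀ h : ℕ, 1 ≤ h →
      Tendsto (fun N : ℕ => ‖Z b h N (XL q x)‖ / N) atTop (𝓝 0) := by
  rw [ae_all_iff]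
  intro b
  by_cases hb : 2 ≤ b
  · have : ∀ᵐ x ∂(volume.restrict (Ico (0 : ℝ) 1)), ∀ h : ℕ, 1 ≤ h →
        Tendsto (fun N : ℕ => ‖Z b h N (XL q x)‖ / N) atTop (𝓝 0) := by
      rw [ae_all_iff]
      intro h
      by_cases hh : 1 ≤ h
      · filter_upwards [ae_Z hq hg b h hb hh] with x hx _
        exact hx
      · exact Eventually.of_forall fun x h1 => absurd h1 hh
    filter_upwards [this] with x hx _
    exact hx
  · exact Eventually.of_forall fun x h1 => absurd h1 hb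

/-- The set of absolutely normal numbers, as in the frozen statement. -/
def AN : Set ℝ := {x : ℝ | ∀ b : ℕ, 2 ≤ b → ∀ k : ℕ, ∀ w : Fin k → ℤ,
            (∀ j : Fin k, 0 ≤ w j ∧ w j < (b:ℤ)) →
            Tendsto (fun N : ℕ =>
              ((((Finset.range N).filter (fun i : ℕ =>
                ∀ j : Fin k, ⌊x * (b:ℝ) ^ (i + j.val + 1)⌋ % (b:ℤ) = w j)).card : ℝ) / (N:ℝ)))
              atTop (𝓝 (1 / (b:ℝ) ^ k))}

theorem mem_AN {x : ℝ} (hx : ∀ b : ℕ, 2 ≤ b → ∀ h : ℕ, 1 ≤ h →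
      Tendsto (fun N : ℕ => ‖Z b h N x‖ / N) atTop (𝓝 0)) : x ∈ AN := by
  intro b hb k w hw
  have h1 := Pool.Agent.H493R3.block_freq b hb x (hx b hb) k
    (fun j => ⟨(w j).toNat, by have := hw j; omega⟩)
  refine h1.congr fun N => ?_
  congr 2
  congr 1
  ext i
  simp only [Finset.mem_filter, Finset.mem_range, and_congr_right_iff]
  intro _
  apply forall_congr'
  intro j
  have e1 : (((w j).toNat : ℕ) : ℤ) = w j := Int.toNat_of_nonneg (hw j).1
  have e2 : i + 1 + (j : ℕ) = i + (j : ℕ) + 1 := by ring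
  rw [e1, e2]

theorem mu_good {q : ℕ → ℕ} (hq : StrictMono q)
    (hg : ∀ k : ℕ, 7 * k * k ^ (16 ^ (k + 1)) ≤ q k) : 1 ≤ mu q (KK q ∩ AN) := by
  obtain ⟨T, hT1, hT2, hT3⟩ := exists_measurable_superset (mu q) (KK q ∩ AN)
  rw [← hT3]
  have h1 : ∀ᵐ x ∂(volume.restrict (Ico (0 : ℝ) 1)), XL q x ∈ T := by
    filter_upwards [ae_Z_all hq hg, ae_restrict_mem measurableSet_Ico] with x hx hx1
    exact hT1 ⟨XL_mem hq hx1, mem_AN hx⟩
  unfold mu
  rw [Measure.map_apply (XL_meas hq) hT2]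
  have h2 : (volume.restrict (Ico (0 : ℝ) 1)) (XL q ⁻¹' T) =
      (volume.restrict (Ico (0 : ℝ) 1)) univ := by
    apply measure_congr
    filter_upwards [h1] with x hx
    change (XL q x ∈ T) = True
    simp [hx]
  rw [h2, Measure.restrict_apply MeasurableSet.univ, univ_inter, Real.volume_Ico]
  simp

end Pool.Agent.V1179.Uniq
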