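import Mathlib
import Pool.Agent.H493R3.Digits

/-! Riemann's method for trigonometric series. -/

set_option autoImplicit false

namespace Pool.Agent.V1179.Uniq

open Filter Topology Set
open Pool.Agent.H493R3 (ee ee_norm ee_add ee_neg ee_int)

/-- The Riemann kernel. -/
noncomputable def u (x : ℝ) : ℝ := Real.sinc x ^ 2

theorem u_neg (x : ℝ) : u (-x) = u x := by unfold u; rw [Real.sinc_neg]

theorem u_zero : u 0 = 1 := by unfold u; simp

theorem u_nonneg (x : ℝ) : 0 ≤ u x := by unfold u; positivity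

theorem u_le_one (x : ℝ) : u x ≤ 1 := by
  unfold u
  have := Real.abs_sinc_le_one x
  rw [← sq_abs]
  nlinarith [abs_nonneg (Real.sinc x)]

theorem u_cont : Continuous u := Real.continuous_sinc.pow 2

theorem u_abs (x : ℝ) : u |x| = u x := by
  rcases abs_cases x with ⟨h, _⟩ | ⟨h, _⟩
  · rw [h]
  · rw [h, u_neg]

theorem u_le_inv {x : ℝ} (hx : x ≠ 0) : u x ≤ 1 / x ^ 2 := by
  unfold u
  rw [Real.sinc_of_ne_zero hx, div_pow]
  gcongr
  have := Real.sin_sq_add_cos_sq x
  nlinarith [sq_nonneg (Real.cos x)]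

theorem u_deriv {x : ℝ} (hx : 0 < x) :
    HasDerivAt u (2 * Real.sin x * (x * Real.cos x - Real.sin x) / x ^ 3) x := by
  have h1 : HasDerivAt (fun t => Real.sin t / t) ((Real.cos x * x - Real.sin x * 1) / x ^ 2) x :=
    (Real.hasDerivAt_sin x).div (hasDerivAt_id x) hx.ne'
  have h2 := h1.pow 2
  have h3 : u =ᶠ[𝓝 x] fun t => (Real.sin t / t) ^ 2 := by
    filter_upwards [lt_mem_nhds hx] with t ht
    unfold u
    rw [Real.sinc_of_ne_zero ht.ne']
  have h4 := h2.congr_of_eventuallyEq h3
  have h5 : 2 * Real.sin x * (x * Real.cos x - Real.sin x) / x ^ 3 =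
      ((2 : ℕ) : ℝ) * (Real.sin x / x) ^ (2 - 1) *
        ((Real.cos x * x - Real.sin x * 1) / x ^ 2) := by
    rw [show (2 - 1 : ℕ) = 1 from rfl, pow_one]
    push_cast
    field_simp
  rw [h5]
  exact h4

theorem u_deriv_le {x : ℝ} (hx : 0 < x) :
    |2 * Real.sin x * (x * Real.cos x - Real.sin x) / x ^ 3| ≤ 16 / (1 + x) ^ 2 := by
  rw [abs_div, abs_mul, abs_mul, abs_of_pos (by positivity : 0 < x ^ 3), abs_two]
  rcases le_total x 1 with h | h
  · have h1 : |Real.sin x| ≤ x := by
      rw [abs_le]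
      have := Real.sin_lt hx
      have := Real.sin_pos_of_pos_of_lt_pi hx (by linarith [Real.pi_gt_three])
      constructor <;> linarith
    have h2 : |x * Real.cos x - Real.sin x| ≤ x ^ 3 / 2 := by
      have a1 := Real.sin_gt_sub_cube hx
      have a2 := Real.sin_lt hx
      have a3 := Real.one_sub_sq_div_two_le_cos (x := x)
      have a4 := Real.cos_le_one x
      have hx3 : 0 < x ^ 3 := by positivity
      rw [abs_le]
      constructor
      · nlinarith
      · nlinarith
    rw [div_le_div_iff₀ (by positivity) (by positivity)]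
    have h3 : (1 + x) ^ 2 ≤ 4 := by nlinarith
    calc 2 * |Real.sin x| * |x * Real.cos x - Real.sin x| * (1 + x) ^ 2
        ≤ 2 * x * (x ^ 3 / 2) * 4 := by gcongr
      _ ≤ 16 * x ^ 3 := by nlinarith [pow_pos hx 3]
  · have h1 : |Real.sin x| ≤ 1 := Real.abs_sin_le_one x
    have h2 : |x * Real.cos x - Real.sin x| ≤ 2 * x := by
      refine (abs_sub _ _).trans ?_
      rw [abs_mul, abs_of_pos hx]
      have := Real.abs_cos_le_one x
      nlinarith
    rw [div_le_div_iff₀ (by positivity) (by positivity)]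
    have h3 : (1 + x) ^ 2 ≤ 4 * x ^ 2 := by nlinarith
    calc 2 * |Real.sin x| * |x * Real.cos x - Real.sin x| * (1 + x) ^ 2
        ≤ 2 * 1 * (2 * x) * (4 * x ^ 2) := by gcongr
      _ = 16 * x ^ 3 := by ring

theorem u_diff_pos {x y : ℝ} (hx : 0 < x) (hxy : x ≤ y) :
    |u y - u x| ≤ 16 * (y / (1 + y) - x / (1 + x)) := by
  have h := image_norm_le_of_norm_deriv_right_le_deriv_boundary' (f := fun t => u t - u x)
    (f' := fun x => 2 * Real.sin x * (x * Real.cos x - Real.sin x) / x ^ 3) (a := x) (b := y)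
    (B := fun t => 16 * (t / (1 + t) - x / (1 + x))) (B' := fun t => 16 * (1 / (1 + t) ^ 2))
    ?_ ?_ ?_ ?_ ?_ ?_ (right_mem_Icc.2 hxy)
  · exact h
  · exact (u_cont.sub continuous_const).continuousOn
  · intro t ht
    exact ((u_deriv (hx.trans_le ht.1)).sub_const _).hasDerivWithinAt
  · simp
  · apply ContinuousOn.mul continuousOn_const
    apply ContinuousOn.sub _ continuousOn_const
    apply ContinuousOn.div continuousOn_id (by fun_prop)
    intro t ht
    have : 0 < t := hx.trans_le ht.1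
    positivity
  · intro t ht
    have ht0 : 0 < t := hx.trans_le ht.1
    have h1 : HasDerivAt (fun t : ℝ => t / (1 + t)) ((1 * (1 + t) - t * 1) / (1 + t) ^ 2) t :=
      (hasDerivAt_id t).div ((hasDerivAt_id t).const_add 1) (by positivity)
    have h2 := (h1.sub_const (x / (1 + x))).const_mul 16
    have h3 : (16 : ℝ) * (1 / (1 + t) ^ 2) = 16 * ((1 * (1 + t) - t * 1) / (1 + t) ^ 2) := by
      congr 2
      ring
    rw [h3]
    exact h2.hasDerivWithinAt
  · intro t ht
    have := u_deriv_le (hx.trans_le ht.1)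
    rw [Real.norm_eq_abs]
    refine this.trans (le_of_eq ?_)
    ring

theorem u_diff {x y : ℝ} (hx : 0 ≤ x) (hxy : x ≤ y) :
    |u y - u x| ≤ 16 * (y / (1 + y) - x / (1 + x)) := by
  rcases hx.eq_or_lt with rfl | hx
  · rcases hxy.eq_or_lt with rfl | hy
    · simp
    · have h1 : Tendsto (fun x : ℝ => |u y - u x|) (𝓝[>] 0) (𝓝 |u y - u 0|) := by
        have : Continuous fun x : ℝ => |u y - u x| := (continuous_const.sub u_cont).abs
        exact (this.tendsto 0).mono_left nhdsWithin_le_nhds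
      have h2 : Tendsto (fun x : ℝ => 16 * (y / (1 + y) - x / (1 + x))) (𝓝[>] 0)
          (𝓝 (16 * (y / (1 + y) - 0 / (1 + 0)))) := by
        have : ContinuousAt (fun x : ℝ => 16 * (y / (1 + y) - x / (1 + x))) 0 := by
          apply ContinuousAt.mul continuousAt_const
          apply ContinuousAt.sub continuousAt_const
          apply ContinuousAt.div continuousAt_id (by fun_prop) (by norm_num)
        exact this.tendsto.mono_left nhdsWithin_le_nhds
      apply le_of_tendsto_of_tendsto h1 h2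
      filter_upwards [Ioo_mem_nhdsGT hy] with x hx
      exact u_diff_pos hx.1 hx.2.le
  · exact u_diff_pos hx hxy

/-- Sums over symmetric intervals. -/
theorem sum_sym (g : ℤ → ℂ) (N : ℕ) :
    ∑ n ∈ Finset.Icc (-((N + 1 : ℕ) : ℤ)) ((N + 1 : ℕ) : ℤ), g n =
      ∑ n ∈ Finset.Icc (-(N : ℤ)) (N : ℤ), g n + (g ((N : ℤ) + 1) + g (-((N : ℤ) + 1))) := by
  have h1 : Finset.Icc (-((N + 1 : ℕ) : ℤ)) ((N + 1 : ℕ) : ℤ) =
      insert ((N : ℤ) + 1) (insert (-((N : ℤ) + 1)) (Finset.Icc (-(N : ℤ)) (N : ℤ))) := by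
    ext x
    simp only [Finset.mem_Icc, Finset.mem_insert]
    push_cast
    omega
  rw [h1, Finset.sum_insert, Finset.sum_insert]
  · ring
  · simp only [Finset.mem_Icc]; omega
  · simp only [Finset.mem_insert, Finset.mem_Icc]; omega

/-- Abel summation. -/
theorem abel (f : ℤ → ℂ) (h : ℝ) (N : ℕ) :
    ∑ n ∈ Finset.Icc (-(N : ℤ)) (N : ℤ), (u (n * h) : ℂ) * f n =
      (u (N * h) : ℂ) * ∑ n ∈ Finset.Icc (-(N : ℤ)) (N : ℤ), f n -
      ∑ k ∈ Finset.range N, ((u (((k + 1 : ℕ) : ℝ) * h) - u ((k : ℝ) * h) : ℝ) : ℂ) *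
        ∑ n ∈ Finset.Icc (-(k : ℤ)) (k : ℤ), f n := by
  induction N with
  | zero => simp
  | succ N ih =>
    rw [sum_sym, ih, sum_sym, Finset.sum_range_succ]
    have e1 : u (((((N : ℤ) + 1) : ℤ) : ℝ) * h) = u (((N + 1 : ℕ) : ℝ) * h) := by
      push_cast
      rfl
    have e2 : u ((((-((N : ℤ) + 1)) : ℤ) : ℝ) * h) = u (((N + 1 : ℕ) : ℝ) * h) := by
      rw [← u_neg]
      congr 1
      push_cast
      ring
    rw [e1, e2]
    push_cast
    ring

/-- Riemann's first theorem. -/
theorem riemann (f : ℤ → ℂ)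
    (hS : Tendsto (fun N : ℕ => ∑ n ∈ Finset.Icc (-(N : ℤ)) (N : ℤ), f n) atTop (𝓝 0))
    (hsum : ∀ h : ℝ, 0 < h → Summable fun n : ℤ => (u (n * h) : ℂ) * f n) :
    Tendsto (fun h : ℝ => ∑' n : ℤ, (u (n * h) : ℂ) * f n) (𝓝[>] 0) (𝓝 0) := by
  set S : ℕ → ℂ := fun N => ∑ n ∈ Finset.Icc (-(N : ℤ)) (N : ℤ), f n with hSdef
  rw [Metric.tendsto_nhdsWithin_nhds]
  intro ε hε
  have hS' : Tendsto (fun N => ‖S N‖) atTop (𝓝 0) := by simpa using hS.norm
  obtain ⟨M, hM⟩ := ((tendsto_order.1 hS').2 (ε / 40) (by positivity)).exists_forall_of_atTop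
  obtain ⟨B, hB⟩ := hS'.bddAbove_range
  have hB' : ∀ N, ‖S N‖ ≤ B := fun N => hB ⟨N, rfl⟩
  have hB0 : 0 ≤ B := (norm_nonneg _).trans (hB' 0)
  refine ⟨ε / (40 * (B + 1) * (M + 1)), by positivity, ?_⟩
  intro h hh hd
  have hh0 : 0 < h := hh
  rw [Real.dist_eq, sub_zero, abs_of_pos hh0] at hd
  rw [dist_zero_right]
  -- partial sums
  have hlim : Tendsto (fun N : ℕ => ∑ n ∈ Finset.Icc (-(N : ℤ)) (N : ℤ), (u (n * h) : ℂ) * f n)
      atTop (𝓝 (∑' n : ℤ, (u (n * h) : ℂ) * f n)) := by
    have h1 : Tendsto (fun N : ℕ => Finset.Icc (-(N : ℤ)) (N : ℤ)) atTop atTop := by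
      apply tendsto_atTop_finset_of_monotone
      · intro a b hab
        apply Finset.Icc_subset_Icc
        · simp only [neg_le_neg_iff]; exact_mod_cast hab
        · exact_mod_cast hab
      · intro x
        refine ⟨x.natAbs, ?_⟩
        simp only [Finset.mem_Icc]
        omega
    exact (hsum h hh0).hasSum.comp h1
  have hle : ∀ N : ℕ, M ≤ N →
      ‖∑ n ∈ Finset.Icc (-(N : ℤ)) (N : ℤ), (u (n * h) : ℂ) * f n‖ ≤ ε * (18 / 20) := by
    intro N hN
    rw [abel]
    refine (norm_sub_le _ _).trans ?_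
    have h1 : ‖(u (N * h) : ℂ) * S N‖ ≤ ε / 40 := by
      rw [norm_mul, Complex.norm_real, Real.norm_eq_abs, abs_of_nonneg (u_nonneg _)]
      have := u_le_one (N * h)
      have := (hM N hN).le
      have := norm_nonneg (S N)
      nlinarith
    -- potential
    set v : ℕ → ℝ := fun k => (k * h) / (1 + k * h) with hv
    have hdiff : ∀ k : ℕ, |u (((k + 1 : ℕ) : ℝ) * h) - u ((k : ℝ) * h)| ≤ 16 * (v (k + 1) - v k) := by
      intro k
      apply u_diff (by positivity)
      push_cast
      nlinarith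
    have hv0 : v 0 = 0 := by simp [hv]
    have hvle : ∀ k, v k ≤ 1 := by
      intro k
      simp only [hv]
      rw [div_le_one (by positivity)]
      linarith
    have hvmono : ∀ k, v k ≤ v (k + 1) := by
      intro k
      have := (abs_nonneg _).trans (hdiff k)
      linarith
    have hv0' : ∀ k, 0 ≤ v k := by
      intro k
      simp only [hv]
      positivity
    have h2 : ∑ k ∈ Finset.range N, ‖((u (((k + 1 : ℕ) : ℝ) * h) - u ((k : ℝ) * h) : ℝ) : ℂ) *
        S k‖ ≤ ε * (17 / 20) := by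
      have hterm : ∀ k, ‖((u (((k + 1 : ℕ) : ℝ) * h) - u ((k : ℝ) * h) : ℝ) : ℂ) * S k‖ ≤
          16 * (v (k + 1) - v k) * ‖S k‖ := by
        intro k
        rw [norm_mul, Complex.norm_real, Real.norm_eq_abs]
        gcongr
        exact hdiff k
      have hsplit := Finset.sum_range_add_sum_Ico
        (fun k => ‖((u (((k + 1 : ℕ) : ℝ) * h) - u ((k : ℝ) * h) : ℝ) : ℂ) * S k‖) hN
      rw [← hsplit]
      have b1 : ∑ k ∈ Finset.range M, ‖((u (((k + 1 : ℕ) : ℝ) * h) - u ((k : ℝ) * h) : ℝ) : ℂ) *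
          S k‖ ≤ 16 * (M * h) * B := by
        calc _ ≤ ∑ k ∈ Finset.range M, 16 * (v (k + 1) - v k) * B := by
              apply Finset.sum_le_sum
              intro k _
              refine (hterm k).trans ?_
              have := hvmono k
              have := hB' k
              have h0 : 0 ≤ 16 * (v (k + 1) - v k) := by linarith
              gcongr
          _ = 16 * (v M - v 0) * B := by
              rw [← Finset.sum_mul, ← Finset.mul_sum, Finset.sum_range_sub]
          _ ≤ 16 * (M * h) * B := by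
              rw [hv0, sub_zero]
              gcongr
              simp only [hv]
              apply div_le_self (by positivity)
              have : 0 ≤ (M : ℝ) * h := by positivity
              linarith
      have b2 : ∑ k ∈ Finset.Ico M N, ‖((u (((k + 1 : ℕ) : ℝ) * h) - u ((k : ℝ) * h) : ℝ) : ℂ) *
          S k‖ ≤ 16 * (ε / 40) := by
        calc _ ≤ ∑ k ∈ Finset.Ico M N, 16 * (v (k + 1) - v k) * (ε / 40) := by
              apply Finset.sum_le_sum
              intro k hk
              refine (hterm k).trans ?_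
              have := hvmono k
              have h0 : 0 ≤ 16 * (v (k + 1) - v k) := by linarith
              have := (hM k (Finset.mem_Ico.1 hk).1).le
              gcongr
          _ = 16 * (v N - v M) * (ε / 40) := by
              rw [← Finset.sum_mul, ← Finset.mul_sum, Finset.sum_Ico_sub _ hN]
          _ ≤ 16 * 1 * (ε / 40) := by
              gcongr
              have := hvle N
              have := hv0' M
              linarith
          _ = _ := by ring
      have b3 : 16 * (M * h) * B ≤ ε * (8 / 20) := by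
        rw [lt_div_iff₀ (by positivity)] at hd
        have hMB : (M : ℝ) * B ≤ (B + 1) * (M + 1) := by nlinarith [Nat.cast_nonneg (α := ℝ) M]
        have : h * ((M : ℝ) * B) ≤ h * ((B + 1) * (M + 1)) := by gcongr
        nlinarith
      linarith
    have h3 := norm_sum_le (Finset.range N) (fun k =>
      ((u (((k + 1 : ℕ) : ℝ) * h) - u ((k : ℝ) * h) : ℝ) : ℂ) * S k)
    have h4 : (∑ k ∈ Finset.range N, ((u (((k + 1 : ℕ) : ℝ) * h) - u ((k : ℝ) * h) : ℝ) : ℂ) *
        ∑ n ∈ Finset.Icc (-(k : ℤ)) (k : ℤ), f n) = ∑ k ∈ Finset.range N,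
        ((u (((k + 1 : ℕ) : ℝ) * h) - u ((k : ℝ) * h) : ℝ) : ℂ) * S k := rfl
    rw [h4]
    linarith
  have hfin : ‖∑' n : ℤ, (u (n * h) : ℂ) * f n‖ ≤ ε * (18 / 20) := by
    apply le_of_tendsto hlim.norm
    filter_upwards [eventually_ge_atTop M] with N hN
    exact hle N hN
  linarith

/-- Schwarz's lemma at the midpoint (one inequality). -/
theorem schwarz_real {F : ℝ → ℝ} {a b : ℝ} (hab : a < b) (hc : ContinuousOn F (Icc a b))
    (hd : ∀ x ∈ Ioo a b, Tendsto (fun h => (F (x + h) + F (x - h) - 2 * F x) / h ^ 2)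
      (𝓝[>] 0) (𝓝 0)) : F ((a + b) / 2) ≤ (F a + F b) / 2 := by
  by_contra hcon
  push Not at hcon
  set η := F ((a + b) / 2) - (F a + F b) / 2 with hη
  have hη0 : 0 < η := by linarith
  set ε := η / (b - a) ^ 2 with hε
  have hba : 0 < b - a := by linarith
  have hε0 : 0 < ε := by positivity
  set s := (F b - F a) / (b - a) with hs
  set G : ℝ → ℝ := fun x => F x - (F a + s * (x - a)) + ε * ((x - a) * (x - b)) with hG
  have hGc : ContinuousOn G (Icc a b) := by
    apply ContinuousOn.add
    · exact hc.sub (by fun_prop)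
    · fun_prop
  have hGa : G a = 0 := by simp [hG]
  have hGb : G b = 0 := by
    simp only [hG, hs]
    field_simp
    ring
  have hGm : 0 < G ((a + b) / 2) := by
    have e1 : s * ((a + b) / 2 - a) = (F b - F a) / 2 := by
      rw [hs]
      field_simp
      ring
    have e2 : ε * (((a + b) / 2 - a) * ((a + b) / 2 - b)) = -(η / 4) := by
      rw [hε]
      field_simp
      ring
    simp only [hG]
    rw [e1, e2]
    linarith
  obtain ⟨x, hx, hmax⟩ := isCompact_Icc.exists_isMaxOn (nonempty_Icc.2 hab.le) hGc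
  have hm : (a + b) / 2 ∈ Icc a b := ⟨by linarith, by linarith⟩
  have hGx : 0 < G x := hGm.trans_le (hmax hm)
  have hxa : a < x := by
    rcases hx.1.eq_or_lt with h | h
    · rw [← h, hGa] at hGx; exact absurd hGx (lt_irrefl _)
    · exact h
  have hxb : x < b := by
    rcases hx.2.eq_or_lt with h | h
    · rw [h, hGb] at hGx; exact absurd hGx (lt_irrefl _)
    · exact h
  have h1 := hd x ⟨hxa, hxb⟩
  have h2 : ∀ᶠ h in 𝓝[>] (0 : ℝ), (F (x + h) + F (x - h) - 2 * F x) / h ^ 2 ≤ -(2 * ε) := by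
    have hmin : 0 < min (x - a) (b - x) := lt_min (by linarith) (by linarith)
    filter_upwards [Ioo_mem_nhdsGT hmin] with h hh
    have hh0 : 0 < h := hh.1
    have ha1 : h < x - a := hh.2.trans_le (min_le_left _ _)
    have hb1 : h < b - x := hh.2.trans_le (min_le_right _ _)
    have m1 : G (x + h) ≤ G x := hmax ⟨by linarith, by linarith⟩
    have m2 : G (x - h) ≤ G x := hmax ⟨by linarith, by linarith⟩
    have e3 : G (x + h) + G (x - h) - 2 * G x =
        (F (x + h) + F (x - h) - 2 * F x) + 2 * ε * h ^ 2 := by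
      simp only [hG]
      ring
    rw [div_le_iff₀ (by positivity)]
    linarith
  have h3 := le_of_tendsto h1 h2
  linarith

theorem schwarz_eq {F : ℝ → ℝ} {a b : ℝ} (hab : a < b) (hc : ContinuousOn F (Icc a b))
    (hd : ∀ x ∈ Ioo a b, Tendsto (fun h => (F (x + h) + F (x - h) - 2 * F x) / h ^ 2)
      (𝓝[>] 0) (𝓝 0)) : F ((a + b) / 2) = (F a + F b) / 2 := by
  apply le_antisymm (schwarz_real hab hc hd)
  have h1 := schwarz_real (F := fun x => -F x) hab hc.neg (by
    intro x hx
    have := (hd x hx).neg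
    rw [neg_zero] at this
    refine this.congr fun h => ?_
    ring)
  linarith

/-- The complex version. -/
theorem schwarz {F : ℝ → ℂ} {a b : ℝ} (hab : a < b) (hc : ContinuousOn F (Icc a b))
    (hd : ∀ x ∈ Ioo a b, Tendsto (fun h : ℝ => (F (x + h) + F (x - h) - 2 * F x) / (h : ℂ) ^ 2)
      (𝓝[>] 0) (𝓝 0)) : F ((a + b) / 2) = (F a + F b) / 2 := by
  apply Complex.ext
  · have h1 := schwarz_eq (F := fun x => (F x).re) hab
      (Complex.continuous_re.comp_continuousOn hc) (by
      intro x hx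
      have h2 := (Complex.continuous_re.tendsto 0).comp (hd x hx)
      simp only [Complex.zero_re] at h2
      refine h2.congr fun h => ?_
      simp only [Function.comp]
      have : ((h : ℂ) ^ 2) = ((h ^ 2 : ℝ) : ℂ) := by push_cast; ring
      rw [this, Complex.div_ofReal_re]
      simp)
    rw [h1]
    simp
  · have h1 := schwarz_eq (F := fun x => (F x).im) hab
      (Complex.continuous_im.comp_continuousOn hc) (by
      intro x hx
      have h2 := (Complex.continuous_im.tendsto 0).comp (hd x hx)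
      simp only [Complex.zero_im] at h2
      refine h2.congr fun h => ?_
      simp only [Function.comp]
      have : ((h : ℂ) ^ 2) = ((h ^ 2 : ℝ) : ℂ) := by push_cast; ring
      rw [this, Complex.div_ofReal_im]
      simp)
    rw [h1]
    simp

end Pool.Agent.V1179.Uniq
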