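import Mathlib
import Pool.Agent.V1179.Uniq.Riem

/-! Sets of uniqueness of Rajchman type. -/

set_option autoImplicit false

namespace Pool.Agent.V1179.Uniq

open Filter Topology Set MeasureTheory
open Pool.Agent.H493R3 (ee ee_norm ee_add ee_neg ee_int)

theorem ee_cont : Continuous ee := by unfold ee; fun_prop

/-- The symmetric partial sums. -/
noncomputable def SS (c : ℤ → ℂ) (N : ℕ) (x : ℝ) : ℂ :=
  ∑ n ∈ Finset.Icc (-(N : ℤ)) (N : ℤ), c n * ee (n * x)

theorem int_ee {m : ℝ} (hm : m ≠ 0) (a b : ℝ) :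
    ‖∫ x in a..b, ee (m * x)‖ ≤ 1 / (Real.pi * |m|) := by
  have h0 : (2 * Real.pi * m * Complex.I : ℂ) ≠ 0 := by
    have := Real.pi_ne_zero
    simp [hm, this]
  have h1 : ∀ x : ℝ, ee (m * x) = Complex.exp ((2 * Real.pi * m * Complex.I : ℂ) * x) := by
    intro x
    unfold ee
    congr 1
    push_cast
    ring
  simp_rw [h1]
  rw [integral_exp_mul_complex h0, norm_div, ← h1, ← h1]
  have h2 : ‖(2 * Real.pi * m * Complex.I : ℂ)‖ = 2 * (Real.pi * |m|) := by
    rw [norm_mul, norm_mul, norm_mul, Complex.norm_I, Complex.norm_real, Complex.norm_real,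
      Complex.norm_two, Real.norm_eq_abs, Real.norm_eq_abs, abs_of_pos Real.pi_pos]
    ring
  rw [h2]
  have h3 : ‖ee (m * b) - ee (m * a)‖ ≤ 2 := by
    refine (norm_sub_le _ _).trans ?_
    rw [ee_norm, ee_norm]
    norm_num
  have hp : 0 < Real.pi * |m| := mul_pos Real.pi_pos (abs_pos.2 hm)
  rw [div_le_div_iff₀ (by positivity) hp]
  nlinarith

/-- The Cantor-Lebesgue theorem on an interval. -/
theorem cantor_lebesgue (c : ℤ → ℂ) {a b : ℝ} (hab : a < b)
    (h : ∀ x ∈ Ioo a b, Tendsto (fun N => SS c N x) atTop (𝓝 0)) :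
    Tendsto (fun n : ℕ => ‖c (n : ℤ)‖ ^ 2 + ‖c (-(n : ℤ))‖ ^ 2) atTop (𝓝 0) := by
  set t : ℕ → ℝ → ℂ := fun n x => c ((n : ℤ) + 1) * ee (((n : ℤ) + 1 : ℤ) * x) +
    c (-((n : ℤ) + 1)) * ee ((-((n : ℤ) + 1) : ℤ) * x) with ht
  have h1 : ∀ x ∈ Ioo a b, Tendsto (fun n => t n x) atTop (𝓝 0) := by
    intro x hx
    have h2 := h x hx
    have h3 := (h2.comp (tendsto_add_atTop_nat 1)).sub h2
    rw [sub_zero] at h3
    refine h3.congr fun n => ?_
    simp only [Function.comp, SS]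
    rw [sum_sym]
    ring
  set Dn : ℕ → ℝ := fun n => ‖c ((n : ℤ) + 1)‖ ^ 2 + ‖c (-((n : ℤ) + 1))‖ ^ 2 with hDn
  have hD0 : ∀ n, 0 ≤ Dn n := fun n => by simp only [hDn]; positivity
  have hnorm : ∀ n x, ‖t n x‖ ^ 2 = Dn n + 2 * (c ((n : ℤ) + 1) * (starRingEnd ℂ) (c (-((n : ℤ) + 1))) *
      ee ((2 * ((n : ℝ) + 1)) * x)).re := by
    intro n x
    simp only [ht, hDn]
    set A := c ((n : ℤ) + 1)
    set B := c (-((n : ℤ) + 1))
    have e1 : ((((n : ℤ) + 1 : ℤ) : ℝ) * x) = ((n : ℝ) + 1) * x := by push_cast; ring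
    have e2 : (((-((n : ℤ) + 1) : ℤ) : ℝ) * x) = -(((n : ℝ) + 1) * x) := by push_cast; ring
    rw [e1, e2]
    set y := ((n : ℝ) + 1) * x with hy
    have e3 : (2 * ((n : ℝ) + 1)) * x = y + y := by rw [hy]; ring
    rw [e3, ee_add, ← Complex.normSq_eq_norm_sq, ← Complex.normSq_eq_norm_sq,
      ← Complex.normSq_eq_norm_sq, Complex.normSq_add, Complex.normSq_mul, Complex.normSq_mul]
    have n1 : Complex.normSq (ee y) = 1 := by rw [Complex.normSq_eq_norm_sq, ee_norm]; norm_num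
    have n2 : Complex.normSq (ee (-y)) = 1 := by rw [Complex.normSq_eq_norm_sq, ee_norm]; norm_num
    rw [n1, n2, mul_one, mul_one, map_mul, ee_neg, Complex.conj_conj]
    congr 3
    ring
  set g : ℕ → ℝ → ℝ := fun n x => ‖t n x‖ ^ 2 / (1 + Dn n) with hg
  have htc : ∀ n, Continuous (t n) := by
    intro n
    simp only [ht]
    exact (continuous_const.mul (ee_cont.comp (by fun_prop))).add
      (continuous_const.mul (ee_cont.comp (by fun_prop)))
  have hgc : ∀ n, Continuous (g n) := by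
    intro n
    simp only [hg]
    exact ((htc n).norm.pow 2).div_const _
  have hlim : Tendsto (fun n => ∫ x in a..b, g n x) atTop (𝓝 (∫ x in a..b, (0 : ℝ))) := by
    apply intervalIntegral.tendsto_integral_filter_of_dominated_convergence (fun _ => 2)
    · exact Eventually.of_forall fun n => (hgc n).aestronglyMeasurable
    · refine Eventually.of_forall fun n => ae_of_all _ fun x _ => ?_
      rw [Real.norm_eq_abs, abs_of_nonneg (by simp only [hg]; have := hD0 n; positivity)]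
      simp only [hg]
      rw [div_le_iff₀ (by linarith [hD0 n])]
      have h5 : ‖t n x‖ ≤ ‖c ((n : ℤ) + 1)‖ + ‖c (-((n : ℤ) + 1))‖ := by
        simp only [ht]
        refine (norm_add_le _ _).trans ?_
        rw [norm_mul, norm_mul, ee_norm, ee_norm, mul_one, mul_one]
      have h6 : ‖t n x‖ ^ 2 ≤ 2 * Dn n := by
        simp only [hDn]
        have := norm_nonneg (t n x)
        nlinarith [sq_nonneg (‖c ((n : ℤ) + 1)‖ - ‖c (-((n : ℤ) + 1))‖)]
      linarith
    · exact intervalIntegrable_const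
    · have hae : ∀ᵐ x : ℝ, x ≠ b := by
        rw [ae_iff]
        simp
      filter_upwards [hae] with x hxb hx
      rw [uIoc_of_le hab.le] at hx
      have hx' : x ∈ Ioo a b := ⟨hx.1, lt_of_le_of_ne hx.2 hxb⟩
      have h7 := (h1 x hx').norm.pow 2
      rw [norm_zero, zero_pow (by norm_num)] at h7
      apply tendsto_of_tendsto_of_tendsto_of_le_of_le tendsto_const_nhds h7
      · intro n; simp only [hg]; have := hD0 n; positivity
      · intro n
        simp only [hg]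
        apply div_le_self (by positivity)
        linarith [hD0 n]
  rw [intervalIntegral.integral_zero] at hlim
  have hlow : ∀ n : ℕ, (Dn n / (1 + Dn n)) * ((b - a) - 1 / (n + 1)) ≤ ∫ x in a..b, g n x := by
    intro n
    have hD := hD0 n
    have e4 : ∫ x in a..b, g n x = (1 / (1 + Dn n)) * (Dn n * (b - a) +
        2 * (c ((n : ℤ) + 1) * (starRingEnd ℂ) (c (-((n : ℤ) + 1))) *
          ∫ x in a..b, ee ((2 * ((n : ℝ) + 1)) * x)).re) := by
      have e5 : ∀ x, g n x = (1 / (1 + Dn n)) * (Dn n + 2 * (c ((n : ℤ) + 1) *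
          (starRingEnd ℂ) (c (-((n : ℤ) + 1))) * ee ((2 * ((n : ℝ) + 1)) * x)).re) := by
        intro x
        simp only [hg]
        rw [hnorm]
        ring
      simp_rw [e5]
      have hcont : Continuous fun x : ℝ => c ((n : ℤ) + 1) *
          (starRingEnd ℂ) (c (-((n : ℤ) + 1))) * ee ((2 * ((n : ℝ) + 1)) * x) :=
        continuous_const.mul (ee_cont.comp (by fun_prop))
      rw [intervalIntegral.integral_const_mul, intervalIntegral.integral_add,
        intervalIntegral.integral_const, intervalIntegral.integral_const_mul, smul_eq_mul,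
        ← intervalIntegral.integral_const_mul]
      · congr 2
        · ring
        · congr 1
          have := (Complex.reCLM.intervalIntegral_comp_comm
            (hcont.intervalIntegrable (μ := volume) a b))
          simpa using this
      · exact intervalIntegrable_const
      · apply Continuous.intervalIntegrable
        exact continuous_const.mul (Complex.continuous_re.comp hcont)
    rw [e4]
    have h8 : ‖∫ x in a..b, ee ((2 * ((n : ℝ) + 1)) * x)‖ ≤ 1 / (n + 1) := by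
      refine (int_ee (by positivity) a b).trans ?_
      rw [abs_of_pos (by positivity)]
      apply one_div_le_one_div_of_le (by positivity)
      have := Real.pi_gt_three
      have : (0 : ℝ) ≤ n := Nat.cast_nonneg n
      nlinarith
    set J := ∫ x in a..b, ee ((2 * ((n : ℝ) + 1)) * x)
    have h9 : |(c ((n : ℤ) + 1) * (starRingEnd ℂ) (c (-((n : ℤ) + 1))) * J).re| ≤
        (Dn n / 2) * (1 / (n + 1)) := by
      refine (Complex.abs_re_le_norm _).trans ?_
      rw [norm_mul, norm_mul, RCLike.norm_conj]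
      have h10 : ‖c ((n : ℤ) + 1)‖ * ‖c (-((n : ℤ) + 1))‖ ≤ Dn n / 2 := by
        simp only [hDn]
        nlinarith [sq_nonneg (‖c ((n : ℤ) + 1)‖ - ‖c (-((n : ℤ) + 1))‖)]
      gcongr
    have h11 := neg_abs_le (c ((n : ℤ) + 1) * (starRingEnd ℂ) (c (-((n : ℤ) + 1))) * J).re
    rw [div_mul_eq_mul_div, one_div_mul_eq_div]
    apply div_le_div_of_nonneg_right _ (by linarith)
    linarith
  -- conclusion
  have hq : Tendsto (fun n : ℕ => (Dn n / (1 + Dn n)) * ((b - a) / 2)) atTop (𝓝 0) := by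
    obtain ⟨n₀, hn₀⟩ := exists_nat_one_div_lt (show 0 < (b - a) / 2 by linarith)
    apply tendsto_of_tendsto_of_tendsto_of_le_of_le' tendsto_const_nhds hlim
    · refine Eventually.of_forall fun n => ?_
      have := hD0 n
      have hba : 0 < b - a := by linarith
      positivity
    · filter_upwards [eventually_ge_atTop n₀] with n hn
      refine le_trans ?_ (hlow n)
      have := hD0 n
      gcongr
      have h12 : 1 / ((n : ℝ) + 1) ≤ 1 / ((n₀ : ℝ) + 1) := by
        apply one_div_le_one_div_of_le (by positivity)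
        have : (n₀ : ℝ) ≤ n := by exact_mod_cast hn
        linarith
      linarith
  have hq2 : Tendsto (fun n : ℕ => Dn n / (1 + Dn n)) atTop (𝓝 0) := by
    have := hq.mul_const (2 / (b - a))
    rw [zero_mul] at this
    refine this.congr fun n => ?_
    have : b - a ≠ 0 := by linarith
    field_simp
  have hq3 : Tendsto Dn atTop (𝓝 0) := by
    have h13 : Tendsto (fun n : ℕ => (Dn n / (1 + Dn n)) / (1 - Dn n / (1 + Dn n))) atTop
        (𝓝 (0 / (1 - 0))) := hq2.div (tendsto_const_nhds.sub hq2) (by norm_num)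
    rw [zero_div] at h13
    refine h13.congr fun n => ?_
    have := hD0 n
    have : 1 + Dn n ≠ 0 := by linarith
    field_simp
    ring
  rw [← tendsto_add_atTop_iff_nat 1]
  refine hq3.congr fun n => ?_
  simp only [hDn]
  push_cast
  rfl

theorem cantor_lebesgue' (c : ℤ → ℂ) {a b : ℝ} (hab : a < b)
    (h : ∀ x ∈ Ioo a b, Tendsto (fun N => SS c N x) atTop (𝓝 0)) (ε : ℝ) (hε : 0 < ε) :
    ∃ M : ℕ, ∀ n : ℤ, (M : ℤ) ≤ |n| → ‖c n‖ ≤ ε := by
  have h1 := cantor_lebesgue c hab h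
  obtain ⟨M, hM⟩ := ((tendsto_order.1 h1).2 (ε ^ 2) (by positivity)).exists_forall_of_atTop
  refine ⟨M, fun n hn => ?_⟩
  have h2 := hM n.natAbs (by have := Int.natCast_natAbs n; omega)
  have h3 : ‖c n‖ ^ 2 ≤ ‖c (n.natAbs : ℤ)‖ ^ 2 + ‖c (-(n.natAbs : ℤ))‖ ^ 2 := by
    rcases Int.natAbs_eq n with h | h
    · rw [← h]
      have := sq_nonneg ‖c (-n)‖
      linarith
    · have h4 : -(n.natAbs : ℤ) = n := by omega
      rw [h4]
      have := sq_nonneg ‖c (n.natAbs : ℤ)‖
      linarith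
  have h5 : ‖c n‖ ^ 2 ≤ ε ^ 2 := by linarith
  exact (pow_le_pow_iff_left₀ (norm_nonneg _) hε.le (by norm_num)).1 h5

theorem bounded (c : ℤ → ℂ) {a b : ℝ} (hab : a < b)
    (h : ∀ x ∈ Ioo a b, Tendsto (fun N => SS c N x) atTop (𝓝 0)) :
    ∃ B : ℝ, 0 ≤ B ∧ ∀ n, ‖c n‖ ≤ B := by
  obtain ⟨M, hM⟩ := cantor_lebesgue' c hab h 1 one_pos
  obtain ⟨B, hB⟩ := ((Set.finite_Icc (-(M : ℤ)) (M : ℤ)).image (fun n => ‖c n‖)).bddAbove
  refine ⟨max B 1, le_max_of_le_right zero_le_one, fun n => ?_⟩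
  by_cases hn : (M : ℤ) ≤ |n|
  · exact (hM n hn).trans (le_max_right _ _)
  · push Not at hn
    refine le_trans (hB ⟨n, ?_, rfl⟩) (le_max_left _ _)
    rw [abs_lt] at hn
    exact ⟨hn.1.le, hn.2.le⟩

/-- The second formal integral. -/
noncomputable def ps (c : ℤ → ℂ) (n : ℤ) (x : ℝ) : ℂ :=
  -(c n / (4 * Real.pi ^ 2 * (n : ℝ) ^ 2 : ℝ)) * ee (n * x)

noncomputable def FF (c : ℤ → ℂ) (x : ℝ) : ℂ := c 0 * (x ^ 2 / 2 : ℝ) + ∑' n, ps c n x

theorem ps_le {c : ℤ → ℂ} {B : ℝ} (hB : ∀ n, ‖c n‖ ≤ B) (n : ℤ) (x : ℝ) :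
    ‖ps c n x‖ ≤ B * (1 / (n : ℝ) ^ 2) := by
  have hB0 : 0 ≤ B := (norm_nonneg _).trans (hB 0)
  unfold ps
  rw [norm_mul, ee_norm, mul_one, norm_neg, norm_div, Complex.norm_real, Real.norm_eq_abs,
    abs_of_nonneg (by positivity)]
  by_cases hn : n = 0
  · subst hn; simp
  have hn0 : (0 : ℝ) < (n : ℝ) ^ 2 := by
    have : (n : ℝ) ≠ 0 := by exact_mod_cast hn
    positivity
  rw [mul_one_div]
  have hp : 1 ≤ 4 * Real.pi ^ 2 := by nlinarith [Real.pi_gt_three]
  gcongr
  · exact hB n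
  · nlinarith

theorem sum_inv_sq : Summable fun n : ℤ => 1 / (n : ℝ) ^ 2 :=
  Real.summable_one_div_int_pow.2 (by norm_num)

theorem ps_summable {c : ℤ → ℂ} {B : ℝ} (hB : ∀ n, ‖c n‖ ≤ B) (x : ℝ) :
    Summable fun n => ps c n x :=
  Summable.of_norm_bounded (sum_inv_sq.mul_left B) fun n => ps_le hB n x

theorem FF_cont {c : ℤ → ℂ} {B : ℝ} (hB : ∀ n, ‖c n‖ ≤ B) : Continuous (FF c) := by
  unfold FF
  apply Continuous.add (by fun_prop)
  apply continuous_tsum _ (sum_inv_sq.mul_left B) fun n x => ps_le hB n x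
  intro n
  unfold ps
  exact continuous_const.mul (ee_cont.comp (by fun_prop))

theorem two_cos (θ : ℝ) : ee θ + ee (-θ) - 2 = ((-4 * Real.sin (Real.pi * θ) ^ 2 : ℝ) : ℂ) := by
  have h1 : ee θ + ee (-θ) = ((2 * Real.cos (2 * (Real.pi * θ)) : ℝ) : ℂ) := by
    rw [ee_neg]
    have : ee θ + (starRingEnd ℂ) (ee θ) = ((2 * (ee θ).re : ℝ) : ℂ) := Complex.add_conj _
    rw [this]
    congr 2
    unfold ee
    have e : (2 * (Real.pi : ℂ) * θ * Complex.I) = ((2 * (Real.pi * θ) : ℝ) : ℂ) * Complex.I := by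
      push_cast; ring
    rw [e, Complex.exp_ofReal_mul_I_re]
  rw [h1, Real.cos_two_mul, Real.cos_sq']
  push_cast
  ring

theorem ps_diff (c : ℤ → ℂ) {n : ℤ} (hn : n ≠ 0) (x : ℝ) {h : ℝ} (hh : h ≠ 0) :
    ps c n (x + h) + ps c n (x - h) - 2 * ps c n x =
      (h : ℂ) ^ 2 * ((u (n * (Real.pi * h)) : ℂ) * (c n * ee (n * x))) := by
  have e1 : ee (n * (x + h)) = ee (n * x) * ee (n * h) := by rw [← ee_add]; congr 1; ring
  have e2 : ee (n * (x - h)) = ee (n * x) * ee (-(n * h)) := by rw [← ee_add]; congr 1; ring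
  have e3 := two_cos (n * h)
  have hn0 : (n : ℝ) ≠ 0 := by exact_mod_cast hn
  have hx0 : (n : ℝ) * (Real.pi * h) ≠ 0 := mul_ne_zero hn0 (mul_ne_zero Real.pi_ne_zero hh)
  have e4 : u (n * (Real.pi * h)) = Real.sin (Real.pi * (n * h)) ^ 2 / (n * (Real.pi * h)) ^ 2 := by
    unfold u
    rw [Real.sinc_of_ne_zero hx0, div_pow]
    congr 3
    ring
  unfold ps
  rw [e1, e2, e4]
  have e5 : -(c n / (4 * Real.pi ^ 2 * (n : ℝ) ^ 2 : ℝ)) * (ee (n * x) * ee (n * h)) +
      -(c n / (4 * Real.pi ^ 2 * (n : ℝ) ^ 2 : ℝ)) * (ee (n * x) * ee (-(n * h))) -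
      2 * (-(c n / (4 * Real.pi ^ 2 * (n : ℝ) ^ 2 : ℝ)) * ee (n * x)) =
      -(c n / (4 * Real.pi ^ 2 * (n : ℝ) ^ 2 : ℝ)) * ee (n * x) * (ee (n * h) + ee (-(n * h)) - 2) := by
    ring
  rw [e5, e3]
  have h1 : (Real.pi : ℂ) ≠ 0 := by exact_mod_cast Real.pi_ne_zero
  have h2 : (n : ℂ) ≠ 0 := by exact_mod_cast hn
  have h3 : (h : ℂ) ≠ 0 := by exact_mod_cast hh
  push_cast
  field_simp

theorem u_sum {c : ℤ → ℂ} {B : ℝ} (hB : ∀ n, ‖c n‖ ≤ B) (x : ℝ) {h : ℝ} (hh : h ≠ 0) :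
    Summable fun n : ℤ => (u (n * h) : ℂ) * (c n * ee (n * x)) := by
  have hB0 : 0 ≤ B := (norm_nonneg _).trans (hB 0)
  have h1 : Summable fun n : ℤ => (B / h ^ 2) * (1 / (n : ℝ) ^ 2) + (if n = 0 then B else 0) := by
    apply (sum_inv_sq.mul_left _).add
    apply summable_of_ne_finset_zero (s := {0})
    intro b hb
    rw [if_neg (by simpa using hb)]
  apply Summable.of_norm_bounded h1
  intro n
  rw [norm_mul, norm_mul, ee_norm, mul_one, Complex.norm_real, Real.norm_eq_abs,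
    abs_of_nonneg (u_nonneg _)]
  by_cases hn : n = 0
  · subst hn
    simp [u_zero]
    exact hB 0
  · rw [if_neg hn, add_zero]
    have hn0 : (n : ℝ) ≠ 0 := by exact_mod_cast hn
    have h2 := u_le_inv (mul_ne_zero hn0 hh)
    calc u (n * h) * ‖c n‖ ≤ (1 / (n * h) ^ 2) * B := by
          gcongr
          exact hB n
      _ = _ := by
          field_simp

theorem FF_diff {c : ℤ → ℂ} {B : ℝ} (hB : ∀ n, ‖c n‖ ≤ B) (x : ℝ) {h : ℝ} (hh : h ≠ 0) :
    FF c (x + h) + FF c (x - h) - 2 * FF c x =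
      (h : ℂ) ^ 2 * ∑' n : ℤ, (u (n * (Real.pi * h)) : ℂ) * (c n * ee (n * x)) := by
  have hph : Real.pi * h ≠ 0 := mul_ne_zero Real.pi_ne_zero hh
  have s1 := ps_summable hB (x + h)
  have s2 := ps_summable hB (x - h)
  have s3 := ps_summable hB x
  have s4 := u_sum hB x hph
  have e1 : ∑' n, ps c n (x + h) + ∑' n, ps c n (x - h) - 2 * ∑' n, ps c n x =
      ∑' n, (ps c n (x + h) + ps c n (x - h) - 2 * ps c n x) := by
    rw [((s1.add s2).tsum_sub (s3.mul_left 2)), s1.tsum_add s2, tsum_mul_left]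
  have e2 : FF c (x + h) + FF c (x - h) - 2 * FF c x = (h : ℂ) ^ 2 * c 0 +
      (∑' n, ps c n (x + h) + ∑' n, ps c n (x - h) - 2 * ∑' n, ps c n x) := by
    unfold FF
    push_cast
    ring
  have s5 : Summable fun n => ps c n (x + h) + ps c n (x - h) - 2 * ps c n x :=
    (s1.add s2).sub (s3.mul_left 2)
  rw [e2, e1, s5.tsum_eq_add_tsum_ite 0, s4.tsum_eq_add_tsum_ite 0]
  have e3 : ps c 0 (x + h) + ps c 0 (x - h) - 2 * ps c 0 x = 0 := by
    unfold ps; simp
  have e4 : (u (((0 : ℤ) : ℝ) * (Real.pi * h)) : ℂ) * (c 0 * ee (((0 : ℤ) : ℝ) * x)) = c 0 := by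
    have : ee 0 = 1 := by simpa using ee_int 0
    simp [u_zero, this]
  rw [e3, e4, zero_add, mul_add, ← tsum_mul_left]
  congr 1
  apply tsum_congr
  intro n
  split_ifs with hn
  · simp
  · rw [ps_diff c hn x hh]

/-- The vanishing of the second difference. -/
theorem second_diff {c : ℤ → ℂ} {B : ℝ} (hB : ∀ n, ‖c n‖ ≤ B) {x η : ℝ} (hη : 0 < η)
    (hconv : ∀ y ∈ Ioo (x - η) (x + η), Tendsto (fun N => SS c N y) atTop (𝓝 0)) :
    ∑' n : ℤ, (u (n * (Real.pi * η)) : ℂ) * (c n * ee (n * x)) = 0 := by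
  have h1 := schwarz (F := FF c) (a := x - η) (b := x + η) (by linarith)
    (FF_cont hB).continuousOn (by
    intro y hy
    have h2 := riemann (fun n => c n * ee (n * y)) (hconv y hy)
      (fun h hh => u_sum hB y hh.ne')
    have h3 : Tendsto (fun h : ℝ => Real.pi * h) (𝓝[>] 0) (𝓝[>] 0) := by
      rw [tendsto_nhdsWithin_iff]
      constructor
      · have : Continuous fun h : ℝ => Real.pi * h := by fun_prop
        have := (this.tendsto 0).mono_left (nhdsWithin_le_nhds (s := Ioi 0))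
        simpa using this
      · filter_upwards [self_mem_nhdsWithin] with h hh
        exact mul_pos Real.pi_pos hh
    refine (h2.comp h3).congr' ?_
    filter_upwards [self_mem_nhdsWithin] with h hh
    have hh0 : (h : ℝ) ≠ 0 := (show (0 : ℝ) < h from hh).ne'
    have hh1 : (h : ℂ) ≠ 0 := by exact_mod_cast hh0
    simp only [Function.comp]
    rw [FF_diff hB y hh0, mul_div_cancel_left₀ _ (pow_ne_zero 2 hh1)])
  have h2 := FF_diff hB x hη.ne'
  have e1 : (x - η + (x + η)) / 2 = x := by ring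
  rw [e1] at h1
  have e2 : FF c (x + η) + FF c (x - η) - 2 * FF c x = 0 := by
    rw [h1]
    ring
  rw [e2] at h2
  have hη1 : (η : ℂ) ≠ 0 := by exact_mod_cast hη.ne'
  rcases mul_eq_zero.1 h2.symm with h3 | h3
  · exact absurd h3 (pow_ne_zero 2 hη1)
  · exact h3

end Pool.Agent.V1179.Uniq
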