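import Mathlib
import Pool.Agent.V1179.Uniq.HSet

/-! Sets of uniqueness of Rajchman type. -/

set_option autoImplicit false

namespace Pool.Agent.V1179.Uniq

open Filter Topology Set MeasureTheory
open Pool.Agent.H493R3 (ee ee_norm ee_add ee_neg ee_int)

theorem ee_pow (x : ℝ) (j : ℕ) : ee (j * x) = ee x ^ j := by
  induction j with
  | zero => simpa using ee_int 0
  | succ j ih =>
    rw [pow_succ, ← ih, ← ee_add]
    congr 1
    push_cast
    ring

theorem ee_eq_one_iff {x : ℝ} : ee x = 1 ↔ ∃ n : ℤ, x = n := by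
  unfold ee
  rw [Complex.exp_eq_one_iff]
  constructor
  · rintro ⟨n, hn⟩
    refine ⟨n, ?_⟩
    have h1 : (2 * Real.pi * Complex.I : ℂ) ≠ 0 := by
      simp [Real.pi_ne_zero]
    have h2 : (x : ℂ) = n := by
      apply mul_left_cancel₀ h1
      linear_combination hn
    exact_mod_cast h2
  · rintro ⟨n, rfl⟩
    refine ⟨n, ?_⟩
    push_cast
    ring

/-- Geometric sums over the midpoints. -/
theorem geom (N : ℕ) (hN : 0 < N) (n : ℤ) :
    ∑ j ∈ Finset.range N, ee (n * (((j : ℝ) + 3 / 4) / N)) =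
      if (N : ℤ) ∣ n then (N : ℂ) * ee (n * (3 / 4 / N)) else 0 := by
  have hN0 : (N : ℝ) ≠ 0 := by positivity
  have e1 : ∀ j : ℕ, ee (n * (((j : ℝ) + 3 / 4) / N)) = ee (n * (3 / 4 / N)) * ee (n / N) ^ j := by
    intro j
    rw [← ee_pow, ← ee_add]
    congr 1
    field_simp
    ring
  simp_rw [e1]
  rw [← Finset.mul_sum]
  split_ifs with h
  · obtain ⟨l, rfl⟩ := h
    have e2 : ee ((((N : ℤ) * l : ℤ) : ℝ) / N) = 1 := by
      rw [ee_eq_one_iff]
      refine ⟨l, ?_⟩
      push_cast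
      field_simp
    simp_rw [e2]
    simp
    ring
  · have e3 : ee ((n : ℝ) / N) ≠ 1 := by
      intro h1
      obtain ⟨l, hl⟩ := ee_eq_one_iff.1 h1
      apply h
      refine ⟨l, ?_⟩
      rw [div_eq_iff hN0] at hl
      have : (n : ℝ) = ((N : ℤ) * l : ℤ) := by rw [hl]; push_cast; ring
      exact_mod_cast this
    rw [geom_sum_eq e3]
    have e4 : ee ((n : ℝ) / N) ^ N = 1 := by
      rw [← ee_pow, ee_eq_one_iff]
      refine ⟨n, ?_⟩
      field_simp
    rw [e4]
    simp

theorem reduced {c : ℤ → ℂ} {B : ℝ} (hB : ∀ n, ‖c n‖ ≤ B) (N : ℕ) (hN : 0 < N)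
    (hconv : ∀ j : ℤ, ∀ x ∈ Ioo (((j : ℝ) + 1 / 2) / N) (((j : ℝ) + 1) / N),
      Tendsto (fun M => SS c M x) atTop (𝓝 0)) (m : ℤ) :
    (Summable fun l : ℤ => (u ((m + N * l : ℤ) * (Real.pi * (1 / (4 * N)))) : ℂ) *
      (c (m + N * l) * ee (3 / 4 * l))) ∧
    ∑' l : ℤ, (u ((m + N * l : ℤ) * (Real.pi * (1 / (4 * N)))) : ℂ) *
      (c (m + N * l) * ee (3 / 4 * l)) = 0 := by
  have hN0 : (0 : ℝ) < N := by exact_mod_cast hN
  set η : ℝ := 1 / (4 * N) with hη
  have hη0 : 0 < η := by positivity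
  have hph : Real.pi * η ≠ 0 := by positivity
  have h1 : ∀ j : ℕ, ∑' n : ℤ, (u (n * (Real.pi * η)) : ℂ) *
      (c n * ee (n * (((j : ℝ) + 3 / 4) / N))) = 0 := by
    intro j
    apply second_diff hB hη0
    intro y hy
    apply hconv j
    have e1 : ((j : ℝ) + 3 / 4) / N - η = ((j : ℝ) + 1 / 2) / N := by
      rw [hη]; field_simp; ring
    have e2 : ((j : ℝ) + 3 / 4) / N + η = ((j : ℝ) + 1) / N := by
      rw [hη]; field_simp; ring
    rw [e1, e2] at hy
    simpa using hy
  set f : ℤ → ℂ := fun n => (u (n * (Real.pi * η)) : ℂ) * (c n *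
    ((1 / (N : ℂ)) * ∑ j ∈ Finset.range N, ee ((n - m : ℤ) * (((j : ℝ) + 3 / 4) / N)))) with hf
  have hsum1 : ∀ j : ℕ, Summable fun n : ℤ => (u (n * (Real.pi * η)) : ℂ) *
      (c n * ee (n * (((j : ℝ) + 3 / 4) / N))) := fun j => u_sum hB _ hph
  have hf2 : ∀ n : ℤ, f n = ∑ j ∈ Finset.range N, (1 / (N : ℂ)) * ee (-(m * (((j : ℝ) + 3 / 4) / N))) *
      ((u (n * (Real.pi * η)) : ℂ) * (c n * ee (n * (((j : ℝ) + 3 / 4) / N)))) := by
    intro n
    simp only [hf]
    rw [Finset.mul_sum, Finset.mul_sum, Finset.mul_sum]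
    apply Finset.sum_congr rfl
    intro j _
    have e3 : ee ((n - m : ℤ) * (((j : ℝ) + 3 / 4) / N)) =
        ee (-(m * (((j : ℝ) + 3 / 4) / N))) * ee (n * (((j : ℝ) + 3 / 4) / N)) := by
      rw [← ee_add]
      congr 1
      push_cast
      ring
    rw [e3]
    ring
  have hfs : Summable f := by
    have : f = fun n : ℤ => ∑ j ∈ Finset.range N, (1 / (N : ℂ)) * ee (-(m * (((j : ℝ) + 3 / 4) / N))) *
      ((u (n * (Real.pi * η)) : ℂ) * (c n * ee (n * (((j : ℝ) + 3 / 4) / N)))) := funext hf2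
    rw [this]
    exact summable_sum fun j _ => (hsum1 j).mul_left _
  have hf0 : ∑' n, f n = 0 := by
    simp_rw [hf2]
    rw [Summable.tsum_finsetSum fun j _ => (hsum1 j).mul_left _]
    apply Finset.sum_eq_zero
    intro j _
    rw [tsum_mul_left, h1 j, mul_zero]
  have hinj : Function.Injective fun l : ℤ => m + N * l := by
    intro a b hab
    simp only [add_right_inj] at hab
    exact mul_left_cancel₀ (by exact_mod_cast hN.ne') hab
  have hsupp : Function.support f ⊆ range fun l : ℤ => m + N * l := by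
    intro n hn
    by_contra hcon
    apply hn
    simp only [hf]
    rw [geom N hN, if_neg]
    · simp
    · rintro ⟨l, hl⟩
      exact hcon ⟨l, by simp only; omega⟩
  have hfl : ∀ l : ℤ, f (m + N * l) = (u ((m + N * l : ℤ) * (Real.pi * η)) : ℂ) *
      (c (m + N * l) * ee (3 / 4 * l)) := by
    intro l
    simp only [hf]
    rw [geom N hN, if_pos ⟨l, by ring⟩]
    have e4 : ((m + N * l - m : ℤ) : ℝ) * (3 / 4 / N) = 3 / 4 * l := by
      push_cast
      field_simp
      ring
    rw [e4]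
    have hNc : (N : ℂ) ≠ 0 := by exact_mod_cast hN.ne'
    field_simp
  constructor
  · refine (hfs.comp_injective hinj).congr fun l => ?_
    exact hfl l
  · rw [← hf0, ← hinj.tsum_eq hsupp]
    apply tsum_congr
    intro l
    exact (hfl l).symm

/-- Rajchman's theorem for the set of points whose binary digits at sparse positions vanish. -/
theorem uniq {c : ℤ → ℂ} {q : ℕ → ℕ} (hq : StrictMono q)
    (hconv : ∀ k : ℕ, ∀ j : ℤ, ∀ x ∈ Ioo (((j : ℝ) + 1 / 2) / 2 ^ q k) (((j : ℝ) + 1) / 2 ^ q k),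
      Tendsto (fun M => SS c M x) atTop (𝓝 0)) (m : ℤ) : c m = 0 := by
  have hab : ((0 : ℤ) + 1 / 2 : ℝ) / 2 ^ q 0 < ((0 : ℤ) + 1 : ℝ) / 2 ^ q 0 := by
    gcongr
    norm_num
  obtain ⟨B, hB0, hB⟩ := bounded c hab (hconv 0 0)
  set C2 : ℝ := ∑' l : ℤ, 1 / (l : ℝ) ^ 2 with hC2
  have hC20 : 0 ≤ C2 := tsum_nonneg fun l => by positivity
  have hNt : Tendsto (fun k => (2 : ℝ) ^ q k) atTop atTop :=
    (tendsto_pow_atTop_atTop_of_one_lt (by norm_num)).comp hq.tendsto_atTop
  have hkey : ∀ ε : ℝ, 0 < ε → ‖c m‖ ≤ ε * (8 * C2) := by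
    intro ε hε
    obtain ⟨M, hM⟩ := cantor_lebesgue' c hab (hconv 0 0) ε hε
    have hlim : Tendsto (fun k => u (m * (Real.pi * (1 / (4 * 2 ^ q k)))) * ‖c m‖) atTop
        (𝓝 (1 * ‖c m‖)) := by
      apply Tendsto.mul_const
      have h1 : Tendsto (fun k => (m : ℝ) * (Real.pi * (1 / (4 * 2 ^ q k)))) atTop (𝓝 0) := by
        have h2 : Tendsto (fun k => 1 / (4 * (2 : ℝ) ^ q k)) atTop (𝓝 0) :=
          tendsto_const_nhds.div_atTop (hNt.const_mul_atTop (by norm_num))
        have h3 := (h2.const_mul Real.pi).const_mul (m : ℝ)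
        simpa using h3
      have h4 := (u_cont.tendsto 0).comp h1
      rw [u_zero] at h4
      exact h4
    rw [one_mul] at hlim
    apply le_of_tendsto hlim
    have hlarge := hNt.eventually_ge_atTop (2 * |(m : ℝ)| + 2 * M)
    filter_upwards [hlarge] with k hk
    set N : ℕ := 2 ^ q k with hN
    have hNpos : 0 < N := by positivity
    have hNr : (N : ℝ) = 2 ^ q k := by rw [hN]; push_cast; ring
    have hN0 : (0 : ℝ) < N := by exact_mod_cast hNpos
    obtain ⟨hs, h0⟩ := reduced hB N hNpos (by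
      intro j x hx
      rw [hNr] at hx
      exact hconv k j x hx) m
    rw [hs.tsum_eq_add_tsum_ite 0] at h0
    have e0 : ee (3 / 4 * ((0 : ℤ) : ℝ)) = 1 := by
      have : ee 0 = 1 := by simpa using ee_int 0
      simp [this]
    rw [e0] at h0
    simp only [mul_zero, add_zero, mul_one] at h0
    rw [← hNr]
    have e1 : u (m * (Real.pi * (1 / (4 * N)))) * ‖c m‖ =
        ‖(u (m * (Real.pi * (1 / (4 * N)))) : ℂ) * c m‖ := by
      rw [norm_mul, Complex.norm_real, Real.norm_eq_abs, abs_of_nonneg (u_nonneg _)]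
    rw [e1, eq_neg_of_add_eq_zero_left h0, norm_neg]
    have hbound : ∀ l : ℤ, ‖(if l = 0 then (0 : ℂ) else
        (u ((m + N * l : ℤ) * (Real.pi * (1 / (4 * N)))) : ℂ) * (c (m + N * l) * ee (3 / 4 * l)))‖ ≤
        ε * 8 * (1 / (l : ℝ) ^ 2) := by
      intro l
      split_ifs with hl
      · rw [norm_zero]; positivity
      · have hl1 : (1 : ℝ) ≤ |(l : ℝ)| := by
          have : (1 : ℤ) ≤ |l| := Int.one_le_abs hl
          exact_mod_cast this
        have hmn : N * |(l : ℝ)| / 2 + M ≤ |(m : ℝ) + N * l| := by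
          have a1 : |(N : ℝ) * l| ≤ |(m : ℝ) + N * l| + |(m : ℝ)| := by
            have := abs_sub ((m : ℝ) + N * l) (m : ℝ)
            rwa [add_sub_cancel_left] at this
          rw [abs_mul, abs_of_pos hN0] at a1
          have a2 : 2 * |(m : ℝ)| + 2 * M ≤ N := by rw [hNr]; exact hk
          have a3 : (N : ℝ) ≤ N * |(l : ℝ)| := by nlinarith
          linarith
        have hc : ‖c (m + N * l)‖ ≤ ε := by
          apply hM
          have : (M : ℝ) ≤ |(m : ℝ) + N * l| := by
            have : 0 ≤ (N : ℝ) * |(l : ℝ)| / 2 := by positivity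
            linarith
          exact_mod_cast this
        have hu : u ((m + N * l : ℤ) * (Real.pi * (1 / (4 * N)))) ≤ 8 * (1 / (l : ℝ) ^ 2) := by
          set X : ℝ := ((m + N * l : ℤ) : ℝ) * (Real.pi * (1 / (4 * N))) with hX
          have a4 : 3 / 8 * |(l : ℝ)| ≤ |X| := by
            rw [hX, abs_mul, abs_of_pos (by positivity : 0 < Real.pi * (1 / (4 * (N : ℝ))))]
            have a5 : N * |(l : ℝ)| / 2 ≤ |((m + N * l : ℤ) : ℝ)| := by
              push_cast
              have : (0 : ℝ) ≤ M := Nat.cast_nonneg M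
              linarith
            calc 3 / 8 * |(l : ℝ)| = (N * |(l : ℝ)| / 2) * (3 * (1 / (4 * N))) := by
                  field_simp; ring
              _ ≤ _ := by
                  have := Real.pi_gt_three
                  gcongr
          have hX0 : X ≠ 0 := by
            rw [← abs_pos]
            linarith
          refine (u_le_inv hX0).trans ?_
          rw [← sq_abs X, mul_one_div, ← sq_abs (l : ℝ)]
          rw [div_le_div_iff₀ (by positivity) (by positivity)]
          nlinarith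
        rw [norm_mul, norm_mul, ee_norm, mul_one, Complex.norm_real, Real.norm_eq_abs,
          abs_of_nonneg (u_nonneg _)]
        calc u ((m + N * l : ℤ) * (Real.pi * (1 / (4 * N)))) * ‖c (m + N * l)‖
            ≤ 8 * (1 / (l : ℝ) ^ 2) * ε := by gcongr
          _ = _ := by ring
    have hfin := tsum_of_norm_bounded ((sum_inv_sq.mul_left (ε * 8)).hasSum) hbound
    rw [tsum_mul_left, ← hC2] at hfin
    linarith
  have h9 : ‖c m‖ ≤ 0 := by
    apply le_of_forall_pos_le_add
    intro δ hδ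
    have := hkey (δ / (8 * C2 + 1)) (by positivity)
    refine this.trans ?_
    rw [zero_add, div_mul_eq_mul_div, div_le_iff₀ (by positivity)]
    nlinarith
  exact norm_le_zero_iff.1 h9

end Pool.Agent.V1179.Uniq
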