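import Mathlib
import Pool.Agent.V1179.Uniq.Norm
import Pool.Agent.V1179.Uniq.Uni

/-! The gauge condition and the final assembly. -/

set_option autoImplicit false

namespace Pool.Agent.V1179.Uniq

open Filter Topology Set MeasureTheory
open scoped ENNReal

theorem exists_q {φ : ℝ → ℝ} (hpos : ∀ r : ℝ, 0 < r → 0 < φ r)
    (hlim : Tendsto (fun r : ℝ => r / φ r) (𝓝[>] (0 : ℝ)) (𝓝 0)) :
    ∃ q : ℕ → ℕ, StrictMono q ∧ (∀ k : ℕ, 7 * k * k ^ (16 ^ (k + 1)) ≤ q k) ∧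
      ∀ k : ℕ, ∀ r : ℝ, 0 < r → r ≤ 1 / 2 ^ q k → 2 ^ (k + 3) * r ≤ φ r := by
  have h1 : ∀ k : ℕ, ∃ g : ℕ, ∀ r : ℝ, 0 < r → r ≤ 1 / 2 ^ g → 2 ^ (k + 3) * r ≤ φ r := by
    intro k
    have h2 := (tendsto_order.1 hlim).2 (1 / 2 ^ (k + 3)) (by positivity)
    obtain ⟨δ, hδ, hδ2⟩ := mem_nhdsGT_iff_exists_Ioo_subset.1 h2
    have hδ0 : (0 : ℝ) < δ := hδ
    obtain ⟨g, hg⟩ := exists_pow_lt_of_lt_one hδ0 (show (1 / 2 : ℝ) < 1 by norm_num)
    refine ⟨g, fun r hr hr2 => ?_⟩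
    have h3 : r ∈ Ioo (0 : ℝ) δ := by
      refine ⟨hr, lt_of_le_of_lt hr2 ?_⟩
      rwa [one_div_pow] at hg
    have h4 := hδ2 h3
    simp only [Set.mem_ofPred_eq] at h4
    have h5 := hpos r hr
    rw [div_lt_div_iff₀ h5 (by positivity)] at h4
    linarith
  choose g hg using h1
  refine ⟨fun k => ∑ i ∈ Finset.range (k + 1), (g i + 7 * i * i ^ (16 ^ (i + 1)) + 1), ?_, ?_, ?_⟩
  · apply strictMono_nat_of_lt_succ
    intro k
    rw [Finset.sum_range_succ _ (k + 1)]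
    omega
  · intro k
    simp only
    rw [Finset.sum_range_succ]
    omega
  · intro k r hr hr2
    apply hg k r hr
    refine hr2.trans ?_
    apply one_div_le_one_div_of_le (by positivity)
    apply pow_le_pow_right₀ (by norm_num)
    simp only
    rw [Finset.sum_range_succ]
    omega

theorem mu_ball {φ : ℝ → ℝ} {q : ℕ → ℕ} (hq : StrictMono q)
    (hg : ∀ k : ℕ, ∀ r : ℝ, 0 < r → r ≤ 1 / 2 ^ q k → 2 ^ (k + 3) * r ≤ φ r) {r : ℝ} (hr : 0 < r)
    (hr0 : r ≤ 1 / 2 ^ q 0) (x : ℝ) : mu q (Icc (x - r) (x + r)) ≤ ENNReal.ofReal (φ r) := by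
  have hex : ∃ k, 1 / 2 ^ q k < r := by
    obtain ⟨n, hn⟩ := exists_pow_lt_of_lt_one hr (show (1 / 2 : ℝ) < 1 by norm_num)
    refine ⟨n, lt_of_le_of_lt ?_ hn⟩
    rw [one_div_pow]
    apply one_div_le_one_div_of_le (by positivity)
    exact pow_le_pow_right₀ (by norm_num) (hq.id_le n)
  classical
  set K := Nat.find hex with hK
  have hK1 : 1 / 2 ^ q K < r := Nat.find_spec hex
  have hKpos : K ≠ 0 := by
    intro h0
    rw [h0] at hK1
    linarith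
  obtain ⟨k, hk⟩ := Nat.exists_eq_succ_of_ne_zero hKpos
  have hk1 : r ≤ 1 / 2 ^ q k := by
    have := Nat.find_min hex (show k < Nat.find hex by rw [← hK, hk]; exact Nat.lt_succ_self k)
    push Not at this
    exact this
  rw [hk] at hK1
  have h1 := mu_Icc hq (k + 1) (x - r) (x + r)
  refine h1.trans ?_
  have h2 : (2 : ℝ≥0∞) ^ (k + 1) = ENNReal.ofReal (2 ^ (k + 1)) := by
    rw [ENNReal.ofReal_pow (by norm_num)]
    norm_num
  rw [h2, ← ENNReal.ofReal_mul (by positivity)]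
  apply ENNReal.ofReal_le_ofReal
  have h3 := hg k r hr hk1
  rw [Nat.succ_eq_add_one] at hK1
  calc 2 ^ (k + 1) * (x + r - (x - r) + 1 / 2 ^ q (k + 1)) ≤ 2 ^ (k + 1) * (4 * r) := by
        gcongr
        linarith
    _ = 2 ^ (k + 3) * r := by ring
    _ ≤ φ r := h3

theorem hausdorff_pos {φ : ℝ → ℝ} (h0 : φ 0 = 0)
    (hpos : ∀ r : ℝ, 0 < r → 0 < φ r) (hφ : Tendsto φ (𝓝[>] (0 : ℝ)) (𝓝 0)) {q : ℕ → ℕ}
    (hq : StrictMono q)
    (hg : ∀ k : ℕ, ∀ r : ℝ, 0 < r → r ≤ 1 / 2 ^ q k → 2 ^ (k + 3) * r ≤ φ r) :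
    mu q ≤ Measure.mkMetric (fun r : ℝ≥0∞ => ENNReal.ofReal (φ r.toReal)) := by
  have hε : (0 : ℝ) < 1 / 2 ^ q 0 := by positivity
  apply Measure.le_mkMetric _ _ (ENNReal.ofReal (1 / 2 ^ q 0)) (ENNReal.ofReal_pos.2 hε)
  intro s hs
  rcases s.eq_empty_or_nonempty with rfl | ⟨x, hx⟩
  · simp
  set r := (Metric.ediam s).toReal with hr
  have hfin : Metric.ediam s ≠ ⊤ := ne_top_of_le_ne_top ENNReal.ofReal_ne_top hs
  have hsub : s ⊆ Icc (x - r) (x + r) := by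
    intro z hz
    have h1 : edist z x ≤ Metric.ediam s := Metric.edist_le_ediam_of_mem hz hx
    have h2 : dist z x ≤ r := by
      rw [dist_edist, hr]
      exact ENNReal.toReal_mono hfin h1
    rw [Real.dist_eq, abs_le] at h2
    exact ⟨by linarith [h2.1], by linarith [h2.2]⟩
  have hrle : r ≤ 1 / 2 ^ q 0 := by
    rw [hr]
    exact ENNReal.toReal_le_of_le_ofReal hε.le hs
  have hrnn : 0 ≤ r := ENNReal.toReal_nonneg
  rcases hrnn.eq_or_lt with hr0 | hr0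
  · -- a single point
    rw [← hr0, sub_zero, add_zero] at hsub
    have h3 : mu q s ≤ 0 := by
      have h4 : Tendsto (fun t : ℝ => ENNReal.ofReal (φ t)) (𝓝[>] 0) (𝓝 (ENNReal.ofReal 0)) :=
        ENNReal.tendsto_ofReal hφ
      rw [ENNReal.ofReal_zero] at h4
      apply ge_of_tendsto h4
      filter_upwards [Ioo_mem_nhdsGT hε] with t ht
      refine le_trans (measure_mono (hsub.trans ?_)) (mu_ball hq hg ht.1 ht.2.le x)
      exact Icc_subset_Icc (by linarith [ht.1]) (by linarith [ht.1])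
    exact h3.trans bot_le
  · exact (measure_mono hsub).trans (mu_ball hq hg hr0 hrle x)

end Pool.Agent.V1179.Uniq
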